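import Mathlib

/-!
# Non-edge-maximal graphs on the double torus that extend to no triangulation

The complete graph `K_8` embeds in the double torus (the closed orientable surface of genus 2), but
in every such embedding exactly two faces are quadrangles and all others are triangles: an
embedding with a single pentagon and seventeen triangles does not exist. Hence, if a connected piece
is attached to `K_8`, that piece lies in one face of `K_8`, and another quadrangular face can never
be triangulated. The graph consisting of `K_8` and a pendant path is therefore not contained in any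
triangulation of the double torus on the same vertex set, although it is embeddable and far from
edge-maximal.

Surfaces and embeddings are handled combinatorially: a triangulation of the closed orientable
surface of genus `g` is given by a rotation system all of whose faces are triangles, with
`V - E + F = 2 - 2 g`, and a graph is embeddable in the surface if it is a subgraph of (the graph of)
a triangulation of the surface, possibly with more vertices.
-/

set_option autoImplicit false

namespace Pool.Agent.Results.MP_2de2bd_co.DoubleTorusK8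

/-! ### Definitions -/

/-- `ρ` is a rotation system of the simple graph `T` all of whose faces are triangles: for every
vertex `u`, the map `v ↦ ρ u v` cyclically permutes the neighbours of `u` (fields `adj` and `cyc`;
`ρ u v` is the neighbour that follows `v` in the cyclic order around `u`), and for every edge `u v`,
directed from `u` to `v`, the face on its left is the triangle `u, v, ρ u v` (field `face`). -/
structure TriRot {V : Type*} (T : SimpleGraph V) (ρ : V → V → V) : Prop where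
  adj : ∀ u v, T.Adj u v → T.Adj u (ρ u v)
  cyc : ∀ u v w, T.Adj u v → T.Adj u w → ∃ m : ℕ, (ρ u)^[m] v = w
  face : ∀ u v, T.Adj u v → T.Adj v (ρ u v) ∧ ρ v (ρ u v) = u

/-- The graph `T` is a triangulation of the closed orientable surface of genus `g`: it is connected,
and it has a rotation system all of whose faces are triangles, with `V - E + F = 2 - 2 g`, where `F`
is the number of faces (each of the `2 E` directed edges lies on exactly one face and each face has
three of them, so `3 F = 2 E`). -/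
def IsTriangulation (g : ℕ) {V : Type} [Fintype V] (T : SimpleGraph V) : Prop :=
  T.Connected ∧ (∃ ρ : V → V → V, TriRot T ρ) ∧
    ∃ F : ℕ, 3 * F = 2 * T.edgeSet.ncard ∧
      (Fintype.card V : ℤ) - T.edgeSet.ncard + F = 2 - 2 * g

/-- The graph `G` is embeddable in the closed orientable surface of genus `g`: it is (isomorphic to)
a subgraph of a triangulation of that surface with a finite vertex set `W`, possibly larger than the
vertex set of `G`. -/
def Embeddable (g : ℕ) {V : Type} (G : SimpleGraph V) : Prop :=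
  ∃ (W : Type) (_ : Fintype W) (T : SimpleGraph W), IsTriangulation g T ∧
    ∃ φ : V ↪ W, ∀ u v, G.Adj u v → T.Adj (φ u) (φ v)

/-- For every pair of non-adjacent vertices `u ≠ v`, the graph `G + uv` is not embeddable. -/
def EdgeMaximal (g : ℕ) {V : Type} (G : SimpleGraph V) : Prop :=
  ∀ u v, u ≠ v → ¬ G.Adj u v → ¬ Embeddable g (G ⊔ SimpleGraph.edge u v)

/-- The complete graph `K_8` on the vertices `0, …, 7` with the pendant path `7, 8, 9, …, n - 1`
attached at the vertex `7`. -/
def lollipop (n : ℕ) : SimpleGraph (Fin n) where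
  Adj i j := i ≠ j ∧ ((i.1 < 8 ∧ j.1 < 8) ∨ (7 ≤ i.1 ∧ j.1 = i.1 + 1) ∨ (7 ≤ j.1 ∧ i.1 = j.1 + 1))
  symm := by
    constructor
    rintro i j ⟨h1, h2⟩
    refine ⟨h1.symm, ?_⟩
    tauto
  loopless := by
    constructor
    rintro i ⟨h1, _⟩
    exact h1 rfl



/-! ### The exhaustive search -/

/-- look up a value in an association list -/
def look : List (ℕ × ℕ) → ℕ → Option ℕ
  | [], _ => none
  | (a, b) :: r, x => if a == x then some b else look r x

/-- follow the partial permutation `r` -/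
def follow (r : List (ℕ × ℕ)) : ℕ → ℕ → ℕ → Bool
  | 0, _, _ => false
  | k + 1, x, t => if x == t then true else
      match look r x with
      | none => false
      | some y => follow r k y t

def rowOf (st : List (ℕ × ℕ × ℕ)) (u : ℕ) : List (ℕ × ℕ) :=
  st.filterMap (fun p => if p.1 == u then some p.2 else none)

def okAdd (r : List (ℕ × ℕ)) (v w : ℕ) : Bool :=
  r.all (fun q => (q.1 == v) == (q.2 == w)) && !(follow r 6 w v)

def addFact (st : List (ℕ × ℕ × ℕ)) (u v w : ℕ) : Option (List (ℕ × ℕ × ℕ)) :=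
  if w == u then none else if w == v then none else
    if okAdd (rowOf st u) v w then some ((u, v, w) :: st) else none

def pent (u v : ℕ) : Bool :=
  (u == 0 && v == 1) || (u == 1 && v == 2) || (u == 2 && v == 3) || (u == 3 && v == 4) ||
    (u == 4 && v == 0)

def addTri (st : List (ℕ × ℕ × ℕ)) (u v w : ℕ) : Option (List (ℕ × ℕ × ℕ)) :=
  if pent u v || pent v w || pent w u then none else
    match addFact st u v w with
    | none => none
    | some st1 => match addFact st1 v w u with
      | none => none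
      | some st2 => addFact st2 w u v

def expand (st : List (ℕ × ℕ × ℕ)) (u v : ℕ) : List (List (ℕ × ℕ × ℕ)) :=
  [0, 1, 2, 3, 4, 5, 6, 7].filterMap (fun w => addTri st u v w)

def run : List (ℕ × ℕ) → List (List (ℕ × ℕ × ℕ)) → Bool
  | _, [] => true
  | [], _ :: _ => false
  | (u, v) :: L, st :: rest =>
    if u == v || !(Nat.blt u 8) || !(Nat.blt v 8) || pent u v then false
    else run L (expand st u v ++ rest)

def cert : List (ℕ × ℕ) := [(0,2), (0,4), (2,4), (2,1), (2,6), (2,7), (0,6), (0,7), (0,3), (0,3), (0,5), (0,7), (6,1), (0,5), (5,3), (2,6), (2,7), (0,5), (0,7), (0,3), (7,3), (0,6), (0,3), (0,7), (1,5), (1,4), (3,5), (2,1), (2,6), (2,7), (0,6), (0,7), (0,3), (0,5), (5,3), (0,3), (0,5), (0,7), (7,1), (2,6), (2,7), (0,5), (0,6), (0,3), (6,3), (0,6), (0,3), (0,7), (1,5), (1,4), (3,5), (2,4), (0,3), (0,5), (0,6), (0,7), (2,7), (4,3), (0,6), (0,7), (2,7), (1,4), (2,1), (0,5), (0,6), (0,7), (2,6), (2,7), (0,6), (0,7), (1,4), (1,3), (5,4), (0,5), (0,6), (0,7), (3,2), (0,6),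 (0,7), (2,1), (4,3), (0,7), (0,3), (0,5), (0,6), (2,7), (2,1), (1,7), (2,6), (5,3), (0,5), (0,6), (2,6), (2,1), (3,1), (0,3), (0,5), (0,6), (2,7), (0,5), (0,6), (1,3), (1,7), (1,4), (4,2), (1,4), (1,7), (2,4), (0,3), (0,5), (0,6), (0,7), (2,6), (4,3), (0,6), (0,7), (2,6), (1,4), (2,1), (0,5), (0,6), (0,7), (2,7), (2,6), (0,6), (0,7), (1,4), (1,3), (5,4), (0,5), (0,6), (0,7), (3,2), (0,6), (0,7), (2,1), (4,3), (0,6), (0,3), (0,5), (0,7), (2,6), (2,1), (1,6), (2,7), (5,3), (0,5), (0,7), (2,7), (2,1), (3,1), (0,3), (0,5), (0,7), (2,6), (0,5), (0,7), (1,3), (1,4), (1,6), (1,6), (1,4), (4,2), (0,4), (2,4), (2,1), (2,5), (2,7), (0,5), (0,7), (0,3), (0,3), (0,6), (0,7), (5,1), (0,6), (6,3), (2,5), (2,7), (0,5), (0,6), (0,3), (0,7), (3,5), (0,7), (0,3), (0,6), (1,6), (1,4), (3,6), (2,1), (2,5), (2,7), (0,5), (0,6), (0,3), (0,7), (1,6), (1,4), (3,6), (0,6), (0,3), (5,3), (2,5), (2,7), (0,5), (0,7), (0,3), (0,6), (6,3), (0,3), (0,6), (0,7), (7,1), (2,4), (0,3), (0,5), (0,6), (0,7), (2,7),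 (1,4), (2,1), (0,6), (0,7), (2,7), (4,3), (0,5), (0,6), (0,7), (1,4), (1,3), (5,6), (0,6), (0,7), (2,5), (2,7), (0,5), (0,6), (0,7), (2,1), (4,3), (0,6), (0,7), (3,2), (0,7), (0,3), (0,5), (0,6), (2,7), (2,1), (1,7), (2,5), (5,7), (0,5), (0,6), (2,5), (2,1), (3,1), (0,3), (0,5), (0,6), (2,7), (0,5), (0,6), (1,3), (1,7), (1,4), (4,2), (1,4), (1,7), (2,4), (0,5), (0,3), (0,6), (0,7), (2,5), (2,1), (1,5), (2,7), (5,6), (0,6), (0,7), (2,7), (2,1), (3,1), (0,3), (0,6), (0,7), (2,5), (0,6), (0,7), (1,3), (1,4), (1,5), (1,5), (1,4), (4,2), (0,3), (0,5), (0,6), (0,7), (2,5), (4,3), (0,6), (0,7), (2,5), (1,4), (2,1), (0,5), (0,6), (0,7), (1,4), (1,3), (6,4), (0,6), (0,7), (2,7), (2,5), (0,5), (0,6), (0,7), (2,1), (4,3), (0,6), (0,7), (3,2), (0,4), (2,4), (2,1), (2,5), (2,6), (0,5), (0,7), (0,3), (0,6), (3,5), (0,6), (0,3), (0,7), (1,7), (1,4), (3,7), (2,5), (2,6), (0,5), (0,6), (0,3), (0,3), (0,6), (5,1), (0,6), (0,7), (7,3), (2,1), (2,5), (2,6), (0,5), (0,7), (0,3), (0,6), (1,7), (1,4),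 (3,7), (0,6), (0,3), (6,5), (2,5), (2,6), (0,5), (0,6), (0,3), (0,7), (7,3), (0,3), (0,6), (6,1), (2,4), (0,6), (0,3), (0,5), (0,7), (2,6), (2,1), (1,6), (2,5), (5,6), (0,5), (0,7), (2,5), (2,1), (3,1), (0,3), (0,5), (0,7), (2,6), (0,5), (0,7), (1,3), (1,6), (1,4), (4,2), (1,4), (1,6), (0,3), (0,5), (0,6), (0,7), (2,6), (1,4), (2,1), (0,6), (0,7), (2,6), (4,3), (0,5), (0,6), (0,7), (1,4), (1,3), (5,7), (0,6), (0,7), (2,5), (2,6), (0,5), (0,6), (0,7), (2,1), (4,3), (0,6), (3,2), (2,4), (0,5), (0,3), (0,6), (0,7), (2,5), (2,1), (1,5), (2,6), (5,7), (0,6), (0,7), (2,6), (2,1), (3,1), (0,3), (0,6), (0,7), (2,5), (0,6), (0,7), (1,3), (1,4), (1,5), (1,5), (1,4), (4,2), (0,3), (0,5), (0,6), (0,7), (2,5), (4,3), (0,6), (0,7), (2,5), (1,4), (2,1), (0,5), (0,6), (0,7), (1,4), (1,3), (6,7), (0,6), (0,7), (2,6), (2,5), (0,5), (0,6), (0,7), (2,1), (4,3), (0,6), (3,2)]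

def initState : List (ℕ × ℕ × ℕ) := [(0,1,4),(1,2,0),(2,3,1),(3,4,2),(4,0,3)]

set_option maxRecDepth 100000 in
theorem run_cert : run cert [initState] = true := by decide +kernel

/-- A (hypothetical) rotation system of `K_8` whose faces are triangles and the pentagon
`0 1 2 3 4`. -/
structure Hyp (g : ℕ → ℕ → ℕ) : Prop where
  lt : ∀ u v, u < 8 → v < 8 → u ≠ v → g u v < 8
  ne : ∀ u v, u < 8 → v < 8 → u ≠ v → g u v ≠ u
  inj : ∀ u v v', u < 8 → v < 8 → v' < 8 → u ≠ v → u ≠ v' → g u v = g u v' → v = v'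
  clo : ∀ u, u < 8 → ∀ S : ℕ → Prop, ∀ v0, v0 < 8 → u ≠ v0 → S v0 →
    (∀ v, v < 8 → u ≠ v → S v → S (g u v)) → ∀ v, v < 8 → u ≠ v → S v
  pen : g 0 1 = 4 ∧ g 1 2 = 0 ∧ g 2 3 = 1 ∧ g 3 4 = 2 ∧ g 4 0 = 3
  tri : ∀ u v, u < 8 → v < 8 → u ≠ v → pent u v = false → g v (g u v) = u

def Sat (g : ℕ → ℕ → ℕ) (st : List (ℕ × ℕ × ℕ)) : Prop :=
  ∀ p ∈ st, p.1 < 8 ∧ p.2.1 < 8 ∧ p.1 ≠ p.2.1 ∧ g p.1 p.2.1 = p.2.2

theorem look_mem {r : List (ℕ × ℕ)} {x y : ℕ} (h : look r x = some y) : (x, y) ∈ r := by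
  induction r with
  | nil => simp [look] at h
  | cons a r ih =>
    obtain ⟨a, b⟩ := a
    unfold look at h
    split_ifs at h with h1
    · simp at h1 h
      subst h1; subst h
      exact List.mem_cons_self
    · exact List.mem_cons_of_mem _ (ih h)

theorem follow_spec {f : ℕ → ℕ} {r : List (ℕ × ℕ)} (hr : ∀ q ∈ r, f q.1 = q.2) :
    ∀ (k x t : ℕ), follow r k x t = true → ∃ j, j < k ∧ f^[j] x = t := by
  intro k
  induction k with
  | zero => intro x t h; simp [follow] at h
  | succ k ih =>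
    intro x t h
    unfold follow at h
    split_ifs at h with h1
    · exact ⟨0, Nat.succ_pos _, by simpa using h1⟩
    · cases hy : look r x with
      | none => rw [hy] at h; simp at h
      | some y =>
        rw [hy] at h
        obtain ⟨j, hj, hj2⟩ := ih y t h
        refine ⟨j + 1, by omega, ?_⟩
        rw [Function.iterate_succ_apply, hr _ (look_mem hy)]
        exact hj2

theorem Hyp.noshort {g : ℕ → ℕ → ℕ} (hg : Hyp g) {u v : ℕ} (hu : u < 8) (hv : v < 8) (huv : u ≠ v)
    {j : ℕ} (hj : j < 6) : (g u)^[j] (g u v) ≠ v := by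
  intro h
  have h' : (g u)^[j + 1] v = v := by rw [Function.iterate_succ_apply]; exact h
  have key := hg.clo u hu (fun x => ∃ i, i < j + 1 ∧ (g u)^[i] v = x) v hv huv
    ⟨0, by omega, rfl⟩ (by
      rintro x hx hux ⟨i, hi, rfl⟩
      by_cases hij : i + 1 < j + 1
      · exact ⟨i + 1, hij, by rw [Function.iterate_succ_apply']⟩
      · have : i = j := by omega
        subst this
        refine ⟨0, by omega, ?_⟩
        rw [← Function.iterate_succ_apply' (g u), h']
        rfl)
  have hsub : (Finset.range 8).erase u ⊆ (Finset.range (j + 1)).image (fun i => (g u)^[i] v) := by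
    intro x hx
    rw [Finset.mem_erase, Finset.mem_range] at hx
    obtain ⟨i, hi, hi2⟩ := key x hx.2 (Ne.symm hx.1)
    exact Finset.mem_image.2 ⟨i, Finset.mem_range.2 hi, hi2⟩
  have h1 := Finset.card_le_card hsub
  have h2 : ((Finset.range (j + 1)).image (fun i => (g u)^[i] v)).card ≤ j + 1 := by
    refine Finset.card_image_le.trans ?_
    simp
  rw [Finset.card_erase_of_mem (Finset.mem_range.2 hu), Finset.card_range] at h1
  omega

theorem okAdd_spec {g : ℕ → ℕ → ℕ} (hg : Hyp g) {st : List (ℕ × ℕ × ℕ)} (hs : Sat g st) {u v : ℕ}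
    (hu : u < 8) (hv : v < 8) (huv : u ≠ v) : okAdd (rowOf st u) v (g u v) = true := by
  have hrow : ∀ q ∈ rowOf st u, q.1 < 8 ∧ u ≠ q.1 ∧ g u q.1 = q.2 := by
    intro q hq
    unfold rowOf at hq
    rw [List.mem_filterMap] at hq
    obtain ⟨p, hp, hp2⟩ := hq
    split_ifs at hp2 with h1
    simp at h1 hp2
    have := hs p hp
    rw [h1, hp2] at this
    exact this.2
  unfold okAdd
  rw [Bool.and_eq_true]
  constructor
  · rw [List.all_eq_true]
    intro q hq
    obtain ⟨h1, h2, h3⟩ := hrow q hq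
    by_cases hqv : q.1 = v
    · rw [hqv] at h3
      simp [hqv, h3]
    · have : q.2 ≠ g u v := by
        intro h4
        rw [← h3] at h4
        exact hqv (hg.inj u q.1 v hu h1 hv h2 huv h4)
      have e1 : (q.1 == v) = false := by simpa using hqv
      have e2 : (q.2 == g u v) = false := by simpa using this
      rw [e1, e2]; rfl
  · rw [Bool.not_eq_true']
    by_contra hne
    rw [Bool.not_eq_false] at hne
    obtain ⟨j, hj, hj2⟩ := follow_spec (f := g u) (fun q hq => (hrow q hq).2.2) _ _ _ hne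
    exact hg.noshort hu hv huv hj hj2

theorem addFact_spec {g : ℕ → ℕ → ℕ} (hg : Hyp g) {st : List (ℕ × ℕ × ℕ)} (hs : Sat g st)
    {u v w : ℕ} (hu : u < 8) (hv : v < 8) (huv : u ≠ v) (hw : g u v = w) :
    addFact st u v w = some ((u, v, w) :: st) ∧ Sat g ((u, v, w) :: st) := by
  subst hw
  have h1 : g u v ≠ u := hg.ne u v hu hv huv
  have h2 : g u v ≠ v := hg.noshort hu hv huv (j := 0) (by omega)
  constructor
  · unfold addFact
    have e1 : (g u v == u) = false := by simpa using h1
    have e2 : (g u v == v) = false := by simpa using h2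
    rw [e1, e2, okAdd_spec hg hs hu hv huv]
    rfl
  · intro p hp
    rw [List.mem_cons] at hp
    rcases hp with rfl | hp
    · exact ⟨hu, hv, huv, rfl⟩
    · exact hs p hp

theorem Hyp.pentNext {g : ℕ → ℕ → ℕ} (hg : Hyp g) {a b : ℕ} (h : pent a b = true) :
    pent (g a b) a = true := by
  obtain ⟨h0, h1, h2, h3, h4⟩ := hg.pen
  unfold pent at h
  simp only [Bool.or_eq_true, Bool.and_eq_true, beq_iff_eq] at h
  rcases h with (((⟨rfl, rfl⟩ | ⟨rfl, rfl⟩) | ⟨rfl, rfl⟩) | ⟨rfl, rfl⟩) | ⟨rfl, rfl⟩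
  · rw [h0]; rfl
  · rw [h1]; rfl
  · rw [h2]; rfl
  · rw [h3]; rfl
  · rw [h4]; rfl

theorem addTri_spec {g : ℕ → ℕ → ℕ} (hg : Hyp g) {st : List (ℕ × ℕ × ℕ)} (hs : Sat g st)
    {u v : ℕ} (hu : u < 8) (hv : v < 8) (huv : u ≠ v) (hp : pent u v = false) :
    ∃ st', addTri st u v (g u v) = some st' ∧ Sat g st' := by
  set w := g u v with hw
  have hw8 : w < 8 := hg.lt u v hu hv huv
  have hwu : w ≠ u := hg.ne u v hu hv huv
  have hwv : w ≠ v := hg.noshort hu hv huv (j := 0) (by omega)
  have e1 : g v w = u := hg.tri u v hu hv huv hp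
  have p1 : pent v w = false := by
    by_contra h
    rw [Bool.not_eq_false] at h
    have := hg.pentNext h
    rw [e1, hp] at this
    exact absurd this (by simp)
  have e2 : g w u = v := by
    have := hg.tri v w hv hw8 (Ne.symm hwv) p1
    rwa [e1] at this
  have p2 : pent w u = false := by
    by_contra h
    rw [Bool.not_eq_false] at h
    have := hg.pentNext h
    rw [e2, p1] at this
    exact absurd this (by simp)
  obtain ⟨a1, s1⟩ := addFact_spec hg hs hu hv huv hw.symm
  obtain ⟨a2, s2⟩ := addFact_spec hg s1 hv hw8 (Ne.symm hwv) e1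
  obtain ⟨a3, s3⟩ := addFact_spec hg s2 hw8 hu hwu e2
  refine ⟨_, ?_, s3⟩
  unfold addTri
  rw [hp, p1, p2, a1]
  simp only [Bool.or_self]
  rw [a2]
  simpa using a3

theorem run_spec {g : ℕ → ℕ → ℕ} (hg : Hyp g) :
    ∀ (L : List (ℕ × ℕ)) (stack : List (List (ℕ × ℕ × ℕ))), run L stack = true →
      ∀ st ∈ stack, ¬ Sat g st := by
  intro L
  induction L with
  | nil =>
    intro stack h st hst
    cases stack with
    | nil => simp at hst
    | cons a b => simp [run] at h
  | cons p L ih =>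
    obtain ⟨u, v⟩ := p
    intro stack h st hst
    cases stack with
    | nil => simp at hst
    | cons a rest =>
      unfold run at h
      split_ifs at h with hc
      rw [Bool.not_eq_true] at hc
      simp only [Bool.or_eq_false_iff, Bool.not_eq_false', beq_eq_false_iff_ne] at hc
      obtain ⟨⟨⟨huv, hu⟩, hv⟩, hp⟩ := hc
      rw [Nat.blt_eq] at hu hv
      rw [List.mem_cons] at hst
      rcases hst with rfl | hst
      · intro hs
        obtain ⟨st', h1, h2⟩ := addTri_spec hg hs hu hv huv hp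
        refine ih _ h st' ?_ h2
        rw [List.mem_append]
        left
        unfold expand
        rw [List.mem_filterMap]
        refine ⟨g u v, ?_, h1⟩
        have := hg.lt u v hu hv huv
        simp
        omega
      · exact ih _ h st (List.mem_append.2 (Or.inr hst))

/-- `K_8` has no rotation system with one pentagonal face and all other faces triangles. -/
theorem no_hyp (g : ℕ → ℕ → ℕ) : ¬ Hyp g := by
  intro hg
  refine run_spec hg _ _ run_cert initState (by simp) ?_
  obtain ⟨h0, h1, h2, h3, h4⟩ := hg.pen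
  intro p hp
  simp only [initState, List.mem_cons, List.mem_nil_iff, or_false] at hp
  rcases hp with rfl | rfl | rfl | rfl | rfl <;> refine ⟨by norm_num, by norm_num, by norm_num, ?_⟩ <;>
    assumption

/-! ### Rotation systems -/

theorem TriRot.clo {V : Type*} {T : SimpleGraph V} {ρ : V → V → V} (h : TriRot T ρ) {u : V}
    (S : V → Prop) (hS : ∀ v, T.Adj u v → S v → S (ρ u v))
    {v w : V} (hv : T.Adj u v) (hw : T.Adj u w) (hSv : S v) : S w := by
  obtain ⟨m, rfl⟩ := h.cyc u v w hv hw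
  have : ∀ m, T.Adj u ((ρ u)^[m] v) ∧ S ((ρ u)^[m] v) := by
    intro m
    induction m with
    | zero => exact ⟨hv, hSv⟩
    | succ m ih => rw [Function.iterate_succ_apply']; exact ⟨h.adj _ _ ih.1, hS _ ih.1 ih.2⟩
  exact (this m).2

theorem TriRot.transition {V : Type*} {T : SimpleGraph V} {ρ : V → V → V} (h : TriRot T ρ) {u : V}
    (S : V → Prop) {v w : V} (hv : T.Adj u v) (hw : T.Adj u w) (hSv : S v) (hSw : ¬ S w) :
    ∃ x, T.Adj u x ∧ S x ∧ ¬ S (ρ u x) := by
  by_contra hcon
  push Not at hcon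
  exact hSw (h.clo S hcon hv hw hSv)

theorem TriRot.face3 {V : Type*} {T : SimpleGraph V} {ρ : V → V → V} (h : TriRot T ρ) {u v : V}
    (huv : T.Adj u v) : T.Adj v (ρ u v) ∧ ρ v (ρ u v) = u ∧ T.Adj (ρ u v) u ∧ ρ (ρ u v) u = v := by
  obtain ⟨h1, h2⟩ := h.face u v huv
  obtain ⟨h3, h4⟩ := h.face _ _ h1
  rw [h2] at h3 h4
  exact ⟨h1, h2, h3, h4⟩

theorem TriRot.inj {V : Type*} {T : SimpleGraph V} {ρ : V → V → V} (h : TriRot T ρ) {u v w : V}
    (huv : T.Adj u v) (huw : T.Adj u w) (he : ρ u v = ρ u w) : v = w := by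
  have h1 := (h.face3 huv).2.2.2
  have h2 := (h.face3 huw).2.2.2
  rw [he] at h1
  exact h1.symm.trans h2

theorem first_return {α : Type*} (r : α → α) (N K : α → Prop)
    (hN : ∀ a, N a → N (r a)) (hcyc : ∀ a b, N a → N b → ∃ m : ℕ, r^[m] a = b)
    (hne : ∃ a, N a ∧ K a) :
    ∃ R : α → α, (∀ a, N a → N (R a) ∧ K (R a)) ∧ (∀ a, K a → R a = a) ∧
      (∀ a, ¬ K a → R (r a) = R a) := by
  classical
  have hNi : ∀ m a, N a → N (r^[m] a) := by
    intro m
    induction m with
    | zero => intro a ha; exact ha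
    | succ m ih => intro a ha; rw [Function.iterate_succ_apply]; exact ih _ (hN a ha)
  by_cases hex : ∃ c, N c ∧ K c
  swap
  · exact absurd hne hex
  obtain ⟨c, hc1, hc2⟩ := hex
  refine ⟨fun a => if h : ∃ m, K (r^[m] a) then r^[Nat.find h] a else c, ?_, ?_, ?_⟩
  · intro a ha
    obtain ⟨b, hb1, hb2⟩ := hne
    have h : ∃ m, K (r^[m] a) := by
      obtain ⟨m, hm⟩ := hcyc a b ha hb1
      exact ⟨m, by rw [hm]; exact hb2⟩
    simp only [dif_pos h]
    exact ⟨hNi _ _ ha, Nat.find_spec h⟩
  · intro a ha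
    have h : ∃ m, K (r^[m] a) := ⟨0, ha⟩
    have h0 : Nat.find h = 0 := by
      rw [Nat.find_eq_zero]; exact ha
    simp only [dif_pos h]
    rw [h0]; rfl
  · intro a ha
    by_cases h : ∃ m, K (r^[m] a)
    · have h' : ∃ m, K (r^[m] (r a)) := by
        obtain ⟨m, hm⟩ := h
        cases m with
        | zero => exact absurd hm ha
        | succ m => exact ⟨m, by rwa [Function.iterate_succ_apply] at hm⟩
      have e : Nat.find h = Nat.find h' + 1 := by
        rw [Nat.find_eq_iff]
        constructor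
        · rw [Function.iterate_succ_apply]; exact Nat.find_spec h'
        · intro j hj
          cases j with
          | zero => exact ha
          | succ j =>
            rw [Function.iterate_succ_apply]
            exact Nat.find_min h' (by omega)
      simp only [dif_pos h, dif_pos h']
      rw [e, Function.iterate_succ_apply]
    · have h' : ¬ ∃ m, K (r^[m] (r a)) := by
        rintro ⟨m, hm⟩
        exact h ⟨m + 1, by rwa [Function.iterate_succ_apply]⟩
      simp only [dif_neg h, dif_neg h']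

/-! ### The contracted rotation system on `K_8` -/

structure GHyp (g : Fin 8 → Fin 8 → Fin 8) (B : Finset (Fin 8 × Fin 8)) : Prop where
  ne : ∀ u v, u ≠ v → g u v ≠ u
  clo : ∀ u, ∀ S : Fin 8 → Prop, ∀ v0, u ≠ v0 → S v0 → (∀ v, u ≠ v → S v → S (g u v)) →
    ∀ v, u ≠ v → S v
  Bne : ∀ u v, (u, v) ∈ B → u ≠ v
  tri : ∀ u v, u ≠ v → (u, v) ∉ B → g v (g u v) = u
  nxt : ∀ u v w, (u, v) ∈ B → v ≠ w → g v w = u → (v, w) ∈ B

theorem GHyp.surj {g : Fin 8 → Fin 8 → Fin 8} {B : Finset (Fin 8 × Fin 8)} (h : GHyp g B)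
    (u w : Fin 8) (huw : u ≠ w) : ∃ v, u ≠ v ∧ g u v = w := by
  by_contra hcon
  push Not at hcon
  obtain ⟨v0, hv0, hv0'⟩ : ∃ v0 : Fin 8, u ≠ v0 ∧ v0 ≠ w :=
    (by decide : ∀ u w : Fin 8, ∃ v0 : Fin 8, u ≠ v0 ∧ v0 ≠ w) u w
  exact h.clo u (fun x => x ≠ w) v0 hv0 hv0' (fun v hv _ => hcon v hv) w huw rfl

theorem GHyp.inj {g : Fin 8 → Fin 8 → Fin 8} {B : Finset (Fin 8 × Fin 8)} (h : GHyp g B)
    (u v v' : Fin 8) (hv : u ≠ v) (hv' : u ≠ v') (he : g u v = g u v') : v = v' := by
  let f : {x : Fin 8 // u ≠ x} → {x : Fin 8 // u ≠ x} := fun x => ⟨g u x.1, (h.ne u x.1 x.2).symm⟩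
  have hs : Function.Surjective f := by
    rintro ⟨w, hw⟩
    obtain ⟨x, hx, hx2⟩ := h.surj u w hw
    exact ⟨⟨x, hx⟩, Subtype.ext hx2⟩
  have hi : Function.Injective f := Finite.injective_iff_surjective.2 hs
  have := hi (a₁ := ⟨v, hv⟩) (a₂ := ⟨v', hv'⟩) (Subtype.ext he)
  exact congrArg Subtype.val this

/-- no fixed points -/
theorem GHyp.nofix {g : Fin 8 → Fin 8 → Fin 8} {B : Finset (Fin 8 × Fin 8)} (h : GHyp g B)
    (u v : Fin 8) (hv : u ≠ v) : g u v ≠ v := by
  intro he
  obtain ⟨w, hw, hw'⟩ : ∃ w : Fin 8, u ≠ w ∧ w ≠ v :=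
    (by decide : ∀ u w : Fin 8, ∃ v0 : Fin 8, u ≠ v0 ∧ v0 ≠ w) u v
  exact hw' (h.clo u (fun x => x = v) v hv rfl (fun x _ hx => by rw [hx]; exact he) w hw)

/-- the next dart of the face -/
theorem GHyp.step {g : Fin 8 → Fin 8 → Fin 8} {B : Finset (Fin 8 × Fin 8)} (h : GHyp g B)
    {u v : Fin 8} (hB : (u, v) ∈ B) : ∃ w, (v, w) ∈ B ∧ g v w = u ∧ w ≠ u ∧ v ≠ w := by
  obtain ⟨w, hw, hw2⟩ := h.surj v u (h.Bne u v hB).symm
  refine ⟨w, h.nxt u v w hB hw hw2, hw2, ?_, hw⟩
  rintro rfl
  exact h.nofix v w hw hw2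


theorem GHyp.outside {g : Fin 8 → Fin 8 → Fin 8} {B : Finset (Fin 8 × Fin 8)} (h : GHyp g B)
    (C : Finset (Fin 8 × Fin 8)) (hC : C ⊆ B) (hcl : ∀ x y, (x, y) ∈ C → (g x y, x) ∈ C)
    (hlt : C.card < B.card) : C.card + 3 ≤ B.card := by
  obtain ⟨⟨a0, a1⟩, hB0, hC0⟩ := Finset.exists_mem_notMem_of_card_lt_card hlt
  obtain ⟨a2, hB1, g1, n20, n12⟩ := h.step hB0
  obtain ⟨a3, hB2, g2, n31, n23⟩ := h.step hB1
  have n01 : a0 ≠ a1 := h.Bne _ _ hB0
  have hC1 : (a1, a2) ∉ C := by
    intro hh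
    have := hcl _ _ hh
    rw [g1] at this
    exact hC0 this
  have hC2 : (a2, a3) ∉ C := by
    intro hh
    have := hcl _ _ hh
    rw [g2] at this
    exact hC1 this
  have e2 : (a1, a2) ∉ insert (a2, a3) C := by
    rw [Finset.mem_insert]
    rintro (hh | hh)
    · exact n12 (congrArg Prod.fst hh)
    · exact hC1 hh
  have e3 : (a0, a1) ∉ insert (a1, a2) (insert (a2, a3) C) := by
    rw [Finset.mem_insert, Finset.mem_insert]
    rintro (hh | hh | hh)
    · exact n01 (congrArg Prod.fst hh)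
    · exact n20 (congrArg Prod.fst hh).symm
    · exact hC0 hh
  have hcard : (insert (a0, a1) (insert (a1, a2) (insert (a2, a3) C))).card = C.card + 3 := by
    rw [Finset.card_insert_of_notMem e3, Finset.card_insert_of_notMem e2,
      Finset.card_insert_of_notMem hC2]
  rw [← hcard]
  apply Finset.card_le_card
  intro p hp
  simp only [Finset.mem_insert] at hp
  rcases hp with rfl | rfl | rfl | hp
  · exact hB0
  · exact hB1
  · exact hB2
  · exact hC hp

theorem GHyp.pentagon {g : Fin 8 → Fin 8 → Fin 8} {B : Finset (Fin 8 × Fin 8)} (h : GHyp g B)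
    (hne : B.Nonempty) (hcard : B.card ≤ 5) (hmod : ∃ m, B.card + 3 * m = 56) :
    ∃ w0 w1 w2 w3 w4 : Fin 8, (w0 ≠ w1 ∧ w0 ≠ w2 ∧ w0 ≠ w3 ∧ w0 ≠ w4 ∧ w1 ≠ w2 ∧ w1 ≠ w3 ∧
      w1 ≠ w4 ∧ w2 ≠ w3 ∧ w2 ≠ w4 ∧ w3 ≠ w4) ∧
      (g w0 w1 = w4 ∧ g w1 w2 = w0 ∧ g w2 w3 = w1 ∧ g w3 w4 = w2 ∧ g w4 w0 = w3) ∧
      (∀ u v, (u, v) ∈ B → (u, v) = (w0, w1) ∨ (u, v) = (w1, w2) ∨ (u, v) = (w2, w3) ∨
        (u, v) = (w3, w4) ∨ (u, v) = (w4, w0)) := by
  have h5 : B.card = 5 := by
    have h0 : 0 < B.card := Finset.card_pos.2 hne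
    have := h.outside ∅ (by simp) (by simp) (by simpa using hne)
    obtain ⟨m, hm⟩ := hmod
    rw [Finset.card_empty] at this
    omega
  obtain ⟨⟨w0, w1⟩, b0⟩ := hne
  have n01 : w0 ≠ w1 := h.Bne _ _ b0
  obtain ⟨w2, b1, g1, n20, n12⟩ := h.step b0
  obtain ⟨w3, b2, g2, n31, n23⟩ := h.step b1
  obtain ⟨w4, b3, g3, n42, n34⟩ := h.step b2
  obtain ⟨w5, b4, g4, n53, n45⟩ := h.step b3
  obtain ⟨w6, b5, g5, n64, n56⟩ := h.step b4
  have claimA : ¬ ((w3, w4) = (w0, w1)) := by
    intro he
    obtain ⟨rfl, rfl⟩ := Prod.mk.injEq .. ▸ he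
    have hc : ({(w3, w4), (w4, w2), (w2, w3)} : Finset (Fin 8 × Fin 8)).card = 3 := by
      rw [Finset.card_eq_three]
      refine ⟨_, _, _, ?_, ?_, ?_, rfl⟩
      · intro hh; exact n01 (congrArg Prod.fst hh)
      · intro hh; exact n20 (congrArg Prod.fst hh).symm
      · intro hh; exact n12 (congrArg Prod.fst hh)
    have := h.outside {(w3, w4), (w4, w2), (w2, w3)} (by
      intro p hp
      simp only [Finset.mem_insert, Finset.mem_singleton] at hp
      rcases hp with rfl | rfl | rfl
      · exact b0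
      · exact b1
      · exact b2) (by
      intro x y hp
      simp only [Finset.mem_insert, Finset.mem_singleton, Prod.mk.injEq] at hp ⊢
      rcases hp with ⟨rfl, rfl⟩ | ⟨rfl, rfl⟩ | ⟨rfl, rfl⟩
      · right; right; exact ⟨g3, rfl⟩
      · left; exact ⟨g1, rfl⟩
      · right; left; exact ⟨g2, rfl⟩) (by rw [hc, h5]; norm_num)
    rw [hc, h5] at this
    omega
  have claimB : ¬ ((w4, w5) = (w0, w1)) := by
    intro he
    obtain ⟨rfl, rfl⟩ := Prod.mk.injEq .. ▸ he
    have hc : 3 ≤ ({(w4, w5), (w5, w2), (w2, w3), (w3, w4)} : Finset (Fin 8 × Fin 8)).card := by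
      have hc3 : ({(w4, w5), (w5, w2), (w2, w3)} : Finset (Fin 8 × Fin 8)).card = 3 := by
        rw [Finset.card_eq_three]
        refine ⟨_, _, _, ?_, ?_, ?_, rfl⟩
        · intro hh; exact n01 (congrArg Prod.fst hh)
        · intro hh; exact n20 (congrArg Prod.fst hh).symm
        · intro hh; exact n12 (congrArg Prod.fst hh)
      rw [← hc3]
      apply Finset.card_le_card
      intro p hp
      simp only [Finset.mem_insert, Finset.mem_singleton] at hp ⊢
      tauto
    have hc4 : ({(w4, w5), (w5, w2), (w2, w3), (w3, w4)} : Finset (Fin 8 × Fin 8)).card ≤ 4 :=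
      Finset.card_le_four
    have := h.outside {(w4, w5), (w5, w2), (w2, w3), (w3, w4)} (by
      intro p hp
      simp only [Finset.mem_insert, Finset.mem_singleton] at hp
      rcases hp with rfl | rfl | rfl | rfl
      · exact b0
      · exact b1
      · exact b2
      · exact b3) (by
      intro x y hp
      simp only [Finset.mem_insert, Finset.mem_singleton, Prod.mk.injEq] at hp ⊢
      rcases hp with ⟨rfl, rfl⟩ | ⟨rfl, rfl⟩ | ⟨rfl, rfl⟩ | ⟨rfl, rfl⟩
      · right; right; right; exact ⟨g4, rfl⟩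
      · left; exact ⟨g1, rfl⟩
      · right; left; exact ⟨g2, rfl⟩
      · right; right; left; exact ⟨g3, rfl⟩) (by rw [h5]; omega)
    rw [h5] at this
    omega
  have claimC : ¬ ((w4, w5) = (w1, w2)) := by
    intro he
    obtain ⟨h1, h2⟩ := Prod.mk.injEq .. ▸ he
    apply claimA
    rw [Prod.mk.injEq]
    refine ⟨?_, h1⟩
    rw [h1, h2] at g4
    rw [← g4, g1]
  -- the five darts are all of B
  have hBeq : ({(w0, w1), (w1, w2), (w2, w3), (w3, w4), (w4, w5)} : Finset (Fin 8 × Fin 8)) = B := by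
    apply Finset.eq_of_subset_of_card_le
    · intro p hp
      simp only [Finset.mem_insert, Finset.mem_singleton] at hp
      rcases hp with rfl | rfl | rfl | rfl | rfl
      · exact b0
      · exact b1
      · exact b2
      · exact b3
      · exact b4
    · rw [h5]
      rw [Finset.card_insert_of_notMem, Finset.card_insert_of_notMem,
        Finset.card_insert_of_notMem, Finset.card_insert_of_notMem, Finset.card_singleton]
      · rw [Finset.mem_singleton]
        intro hh; exact n34 (congrArg Prod.fst hh)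
      · rw [Finset.mem_insert, Finset.mem_singleton]
        rintro (hh | hh)
        · exact n23 (congrArg Prod.fst hh)
        · exact n42 (congrArg Prod.fst hh).symm
      · rw [Finset.mem_insert, Finset.mem_insert, Finset.mem_singleton]
        rintro (hh | hh | hh)
        · exact n12 (congrArg Prod.fst hh)
        · exact n31 (congrArg Prod.fst hh).symm
        · exact claimC hh.symm
      · rw [Finset.mem_insert, Finset.mem_insert, Finset.mem_insert, Finset.mem_singleton]
        rintro (hh | hh | hh | hh)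
        · exact n01 (congrArg Prod.fst hh)
        · exact n20 (congrArg Prod.fst hh).symm
        · exact claimA hh.symm
        · exact claimB hh.symm
  have hb5 : (w5, w6) = (w0, w1) := by
    have := b5
    rw [← hBeq] at this
    simp only [Finset.mem_insert, Finset.mem_singleton] at this
    rcases this with hh | hh | hh | hh | hh
    · exact hh
    · exfalso
      obtain ⟨h1, h2⟩ := Prod.mk.injEq .. ▸ hh
      apply claimB
      rw [Prod.mk.injEq]
      refine ⟨?_, h1⟩
      rw [h1, h2] at g5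
      rw [← g5, g1]
    · exfalso
      obtain ⟨h1, h2⟩ := Prod.mk.injEq .. ▸ hh
      apply claimC
      rw [Prod.mk.injEq]
      refine ⟨?_, h1⟩
      rw [h1, h2] at g5
      rw [← g5, g2]
    · exact absurd (congrArg Prod.fst hh) n53
    · exact absurd (congrArg Prod.fst hh) n45.symm
  obtain ⟨rfl, rfl⟩ := Prod.mk.injEq .. ▸ hb5
  refine ⟨w5, w6, w2, w3, w4, ⟨n01, n20.symm, n53, n45.symm, n12, n31.symm, n64, n23, n42.symm, n34⟩,
    ⟨g5, g1, g2, g3, g4⟩, ?_⟩
  intro u v huv
  rw [← hBeq] at huv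
  simp only [Finset.mem_insert, Finset.mem_singleton] at huv
  exact huv

/-- there is a permutation sending five distinct points to `0,1,2,3,4` -/
theorem exists_relabel (w0 w1 w2 w3 w4 : Fin 8) (hd : w0 ≠ w1 ∧ w0 ≠ w2 ∧ w0 ≠ w3 ∧ w0 ≠ w4 ∧
    w1 ≠ w2 ∧ w1 ≠ w3 ∧ w1 ≠ w4 ∧ w2 ≠ w3 ∧ w2 ≠ w4 ∧ w3 ≠ w4) :
    ∃ π : Equiv.Perm (Fin 8), π w0 = 0 ∧ π w1 = 1 ∧ π w2 = 2 ∧ π w3 = 3 ∧ π w4 = 4 := by
  obtain ⟨h01, h02, h03, h04, h12, h13, h14, h23, h24, h34⟩ := hd
  have hx : Function.Injective (![w0, w1, w2, w3, w4] : Fin 5 → Fin 8) := by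
    intro i j hij
    fin_cases i <;> fin_cases j <;> simp_all
  have hy : Function.Injective (![0, 1, 2, 3, 4] : Fin 5 → Fin 8) := by decide
  obtain ⟨π, hπ⟩ := Equiv.Perm.exists_extending_pair _ _ hx hy
  exact ⟨π, hπ 0, hπ 1, hπ 2, hπ 3, hπ 4⟩

theorem GHyp.false {g : Fin 8 → Fin 8 → Fin 8} {B : Finset (Fin 8 × Fin 8)} (h : GHyp g B)
    (hne : B.Nonempty) (hcard : B.card ≤ 5) (hmod : ∃ m, B.card + 3 * m = 56) : False := by
  obtain ⟨w0, w1, w2, w3, w4, hd, ⟨g0, g1, g2, g3, g4⟩, hB⟩ := h.pentagon hne hcard hmod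
  obtain ⟨π, p0, p1, p2, p3, p4⟩ := exists_relabel w0 w1 w2 w3 w4 hd
  have s0 : π.symm 0 = w0 := by rw [← p0, Equiv.symm_apply_apply]
  have s1 : π.symm 1 = w1 := by rw [← p1, Equiv.symm_apply_apply]
  have s2 : π.symm 2 = w2 := by rw [← p2, Equiv.symm_apply_apply]
  have s3 : π.symm 3 = w3 := by rw [← p3, Equiv.symm_apply_apply]
  have s4 : π.symm 4 = w4 := by rw [← p4, Equiv.symm_apply_apply]
  let f : Fin 8 → Fin 8 → Fin 8 := fun a b => π (g (π.symm a) (π.symm b))
  let G : ℕ → ℕ → ℕ := fun a b => if hab : a < 8 ∧ b < 8 then (f ⟨a, hab.1⟩ ⟨b, hab.2⟩).1 else 0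
  have hG : ∀ (a b : ℕ) (ha : a < 8) (hb : b < 8), G a b = (f ⟨a, ha⟩ ⟨b, hb⟩).1 := by
    intro a b ha hb
    simp only [G, dif_pos (And.intro ha hb)]
  have hne' : ∀ (a b : ℕ) (ha : a < 8) (hb : b < 8), a ≠ b → π.symm ⟨a, ha⟩ ≠ π.symm ⟨b, hb⟩ := by
    intro a b ha hb hab he
    exact hab (congrArg Fin.val (π.symm.injective he))
  refine no_hyp G ⟨?_, ?_, ?_, ?_, ?_, ?_⟩
  · intro u v hu hv huv
    rw [hG u v hu hv]
    exact Fin.isLt _
  · intro u v hu hv huv
    rw [hG u v hu hv]
    intro he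
    have he' : f ⟨u, hu⟩ ⟨v, hv⟩ = ⟨u, hu⟩ := Fin.ext he
    exact h.ne _ _ (hne' u v hu hv huv) ((Equiv.eq_symm_apply π).2 he')
  · intro u v v' hu hv hv' huv huv' he
    rw [hG u v hu hv, hG u v' hu hv'] at he
    have he' := π.injective (Fin.ext he)
    have := h.inj _ _ _ (hne' u v hu hv huv) (hne' u v' hu hv' huv') he'
    exact congrArg Fin.val (π.symm.injective this)
  · intro u hu S v0 hv0 huv0 hS0 hcl v hv huv
    have key := h.clo (π.symm ⟨u, hu⟩) (fun x => S (π x).1) (π.symm ⟨v0, hv0⟩)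
      (hne' u v0 hu hv0 huv0) (by simpa using hS0) (by
        intro x hx hSx
        have hx' : u ≠ (π x).1 := by
          intro he
          apply hx
          rw [Equiv.symm_apply_eq]
          exact Fin.ext he
        have := hcl (π x).1 (π x).2 hx' hSx
        rw [hG u _ hu (π x).2] at this
        simpa [f] using this) (π.symm ⟨v, hv⟩) (hne' u v hu hv huv)
    simpa using key
  · refine ⟨?_, ?_, ?_, ?_, ?_⟩
    · rw [hG 0 1 (by norm_num) (by norm_num)]
      change (π (g (π.symm 0) (π.symm 1))).1 = 4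
      rw [s0, s1, g0, p4]; rfl
    · rw [hG 1 2 (by norm_num) (by norm_num)]
      change (π (g (π.symm 1) (π.symm 2))).1 = 0
      rw [s1, s2, g1, p0]; rfl
    · rw [hG 2 3 (by norm_num) (by norm_num)]
      change (π (g (π.symm 2) (π.symm 3))).1 = 1
      rw [s2, s3, g2, p1]; rfl
    · rw [hG 3 4 (by norm_num) (by norm_num)]
      change (π (g (π.symm 3) (π.symm 4))).1 = 2
      rw [s3, s4, g3, p2]; rfl
    · rw [hG 4 0 (by norm_num) (by norm_num)]
      change (π (g (π.symm 4) (π.symm 0))).1 = 3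
      rw [s4, s0, g4, p3]; rfl
  · intro u v hu hv huv hp
    have hnB : (π.symm ⟨u, hu⟩, π.symm ⟨v, hv⟩) ∉ B := by
      intro hmem
      have hpe : ∀ (a b : Fin 8) (i j : Fin 8), π a = i → π b = j → pent i.1 j.1 = true →
          (π.symm ⟨u, hu⟩, π.symm ⟨v, hv⟩) = (a, b) → False := by
        intro a b i j ha hb hij he
        obtain ⟨h1, h2⟩ := Prod.mk.injEq .. ▸ he
        rw [Equiv.symm_apply_eq, ha] at h1
        rw [Equiv.symm_apply_eq, hb] at h2
        have h1' : u = i.1 := congrArg Fin.val h1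
        have h2' : v = j.1 := congrArg Fin.val h2
        rw [h1', h2', hij] at hp
        exact absurd hp (by simp)
      rcases hB _ _ hmem with he | he | he | he | he
      · exact hpe _ _ 0 1 p0 p1 rfl he
      · exact hpe _ _ 1 2 p1 p2 rfl he
      · exact hpe _ _ 2 3 p2 p3 rfl he
      · exact hpe _ _ 3 4 p3 p4 rfl he
      · exact hpe _ _ 4 0 p4 p0 rfl he
    have := h.tri _ _ (hne' u v hu hv huv) hnB
    rw [hG u v hu hv, hG v _ hv (Fin.isLt _)]
    simp [f, this]


/-! ### Counting -/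

section Counting

variable {n : ℕ} {T : SimpleGraph (Fin n)} {ρ : Fin n → Fin n → Fin n}

open Classical in
/-- the darts of `T` -/
noncomputable def darts (T : SimpleGraph (Fin n)) : Finset (Fin n × Fin n) :=
  Finset.univ.filter (fun p => T.Adj p.1 p.2)

theorem mem_darts {p : Fin n × Fin n} : p ∈ darts T ↔ T.Adj p.1 p.2 := by
  simp [darts]

open Classical in
theorem card_darts_lt : ((darts T).filter (fun p => p.2 < p.1)).card = T.edgeSet.ncard := by
  have e : T.edgeSet = (fun p : Fin n × Fin n => s(p.1, p.2)) ''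
      (((darts T).filter (fun p => p.2 < p.1) : Finset (Fin n × Fin n)) : Set (Fin n × Fin n)) := by
    ext x
    induction x using Sym2.ind with
    | _ a b =>
      simp only [SimpleGraph.mem_edgeSet, Set.mem_image, Finset.coe_filter, Set.mem_ofPred_eq,
        mem_darts, Prod.exists]
      constructor
      · intro hab
        rcases lt_trichotomy a b with hlt | heq | hgt
        · exact ⟨b, a, ⟨hab.symm, hlt⟩, Sym2.eq_swap⟩
        · exact absurd heq hab.ne
        · exact ⟨a, b, ⟨hab, hgt⟩, rfl⟩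
      · rintro ⟨c, d, ⟨hcd, _⟩, he⟩
        rw [Sym2.eq_iff] at he
        rcases he with ⟨rfl, rfl⟩ | ⟨rfl, rfl⟩
        · exact hcd
        · exact hcd.symm
  rw [e, Set.InjOn.ncard_image, Set.ncard_coe_finset]
  rintro ⟨a, b⟩ hab ⟨c, d⟩ hcd he
  simp only [Finset.coe_filter, Set.mem_ofPred_eq] at hab hcd
  rw [Sym2.eq_iff] at he
  rcases he with ⟨h1, h2⟩ | ⟨h1, h2⟩
  · exact Prod.ext h1 h2
  · exfalso
    have h1' : a = d := h1
    have h2' : b = c := h2
    have l1 := hab.2
    have l2 := hcd.2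
    change b < a at l1
    change d < c at l2
    rw [h1', h2'] at l1
    exact absurd l1 (not_lt.2 l2.le)

open Classical in
theorem card_darts : (darts T).card = 2 * T.edgeSet.ncard := by
  have h1 : ((darts T).filter (fun p => p.1 < p.2)).card =
      ((darts T).filter (fun p => p.2 < p.1)).card := by
    refine Finset.card_nbij' Prod.swap Prod.swap ?_ ?_ ?_ ?_
    · intro p hp
      simp only [Finset.coe_filter, Set.mem_ofPred_eq, mem_darts] at hp ⊢
      exact ⟨hp.1.symm, hp.2⟩
    · intro p hp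
      simp only [Finset.coe_filter, Set.mem_ofPred_eq, mem_darts] at hp ⊢
      exact ⟨hp.1.symm, hp.2⟩
    · intro p _; exact Prod.swap_swap p
    · intro p _; exact Prod.swap_swap p
  have h2 : darts T = (darts T).filter (fun p => p.2 < p.1) ∪ (darts T).filter (fun p => p.1 < p.2) := by
    ext p
    simp only [Finset.mem_union, Finset.mem_filter]
    constructor
    · intro hp
      rcases lt_trichotomy p.1 p.2 with h | h | h
      · exact Or.inr ⟨hp, h⟩
      · exact absurd h (mem_darts.1 hp).ne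
      · exact Or.inl ⟨hp, h⟩
    · rintro (h | h) <;> exact h.1
  have h3 : Disjoint ((darts T).filter (fun p => p.2 < p.1)) ((darts T).filter (fun p => p.1 < p.2)) := by
    rw [Finset.disjoint_filter]
    intro p _ h1 h2
    exact absurd h1 (not_lt.2 h2.le)
  rw [h2, Finset.card_union_of_disjoint h3, h1, card_darts_lt]
  ring

open Classical in
/-- Each triangle is counted three times. -/
theorem card_triple (h : TriRot T ρ) (Q : Fin n → Fin n → Fin n → Prop)
    (hQ : ∀ u v w, Q u v w → Q v w u) :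
    ((darts T).filter (fun p => Q p.1 p.2 (ρ p.1 p.2))).card =
      3 * ((darts T).filter (fun p => Q p.1 p.2 (ρ p.1 p.2) ∧ p.2 < p.1 ∧ ρ p.1 p.2 < p.1)).card := by
  set A1 := (darts T).filter (fun p => Q p.1 p.2 (ρ p.1 p.2) ∧ p.2 < p.1 ∧ ρ p.1 p.2 < p.1) with hA1
  set A2 := (darts T).filter (fun p => Q p.1 p.2 (ρ p.1 p.2) ∧ p.1 < p.2 ∧ ρ p.1 p.2 < p.2) with hA2
  set A3 := (darts T).filter (fun p => Q p.1 p.2 (ρ p.1 p.2) ∧ p.1 < ρ p.1 p.2 ∧
    p.2 < ρ p.1 p.2) with hA3
  have c2 : A2.card = A1.card := by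
    refine Finset.card_nbij' (fun p => (p.2, ρ p.1 p.2)) (fun p => (ρ p.1 p.2, p.1)) ?_ ?_ ?_ ?_
    · rintro ⟨u, v⟩ hp
      simp only [hA1, hA2, Finset.coe_filter, Set.mem_ofPred_eq, mem_darts] at hp ⊢
      obtain ⟨f1, f2, f3, f4⟩ := h.face3 hp.1
      rw [f2]
      exact ⟨f1, hQ _ _ _ hp.2.1, hp.2.2.2, hp.2.2.1⟩
    · rintro ⟨u, v⟩ hp
      simp only [hA1, hA2, Finset.coe_filter, Set.mem_ofPred_eq, mem_darts] at hp ⊢
      obtain ⟨f1, f2, f3, f4⟩ := h.face3 hp.1
      rw [f4]
      exact ⟨f3, hQ _ _ _ (hQ _ _ _ hp.2.1), hp.2.2.2, hp.2.2.1⟩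
    · rintro ⟨u, v⟩ hp
      simp only [hA2, Finset.coe_filter, Set.mem_ofPred_eq, mem_darts] at hp
      obtain ⟨f1, f2, f3, f4⟩ := h.face3 hp.1
      simp only [f2]
    · rintro ⟨u, v⟩ hp
      simp only [hA1, Finset.coe_filter, Set.mem_ofPred_eq, mem_darts] at hp
      obtain ⟨f1, f2, f3, f4⟩ := h.face3 hp.1
      simp only [f4]
  have c3 : A3.card = A2.card := by
    refine Finset.card_nbij' (fun p => (p.2, ρ p.1 p.2)) (fun p => (ρ p.1 p.2, p.1)) ?_ ?_ ?_ ?_
    · rintro ⟨u, v⟩ hp
      simp only [hA3, hA2, Finset.coe_filter, Set.mem_ofPred_eq, mem_darts] at hp ⊢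
      obtain ⟨f1, f2, f3, f4⟩ := h.face3 hp.1
      rw [f2]
      exact ⟨f1, hQ _ _ _ hp.2.1, hp.2.2.2, hp.2.2.1⟩
    · rintro ⟨u, v⟩ hp
      simp only [hA3, hA2, Finset.coe_filter, Set.mem_ofPred_eq, mem_darts] at hp ⊢
      obtain ⟨f1, f2, f3, f4⟩ := h.face3 hp.1
      rw [f4]
      exact ⟨f3, hQ _ _ _ (hQ _ _ _ hp.2.1), hp.2.2.2, hp.2.2.1⟩
    · rintro ⟨u, v⟩ hp
      simp only [hA3, Finset.coe_filter, Set.mem_ofPred_eq, mem_darts] at hp
      obtain ⟨f1, f2, f3, f4⟩ := h.face3 hp.1
      simp only [f2]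
    · rintro ⟨u, v⟩ hp
      simp only [hA2, Finset.coe_filter, Set.mem_ofPred_eq, mem_darts] at hp
      obtain ⟨f1, f2, f3, f4⟩ := h.face3 hp.1
      simp only [f4]
  have hU : (darts T).filter (fun p => Q p.1 p.2 (ρ p.1 p.2)) = A1 ∪ (A2 ∪ A3) := by
    ext ⟨u, v⟩
    simp only [hA1, hA2, hA3, Finset.mem_union, Finset.mem_filter, mem_darts]
    constructor
    · rintro ⟨hp, hq⟩
      obtain ⟨f1, f2, f3, f4⟩ := h.face3 hp
      have n1 : u ≠ v := hp.ne
      have n2 : v ≠ ρ u v := f1.ne
      have n3 : ρ u v ≠ u := f3.ne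
      rcases lt_or_gt_of_ne n1 with l1 | l1
      · rcases lt_or_gt_of_ne n2 with l2 | l2
        · exact Or.inr (Or.inr ⟨hp, hq, l1.trans l2, l2⟩)
        · exact Or.inr (Or.inl ⟨hp, hq, l1, l2⟩)
      · rcases lt_or_gt_of_ne n3 with l3 | l3
        · exact Or.inl ⟨hp, hq, l1, l3⟩
        · exact Or.inr (Or.inr ⟨hp, hq, l3, l1.trans l3⟩)
    · rintro (hp | hp | hp) <;> exact ⟨hp.1, hp.2.1⟩
  have d23 : Disjoint A2 A3 := by
    rw [hA2, hA3, Finset.disjoint_filter]
    rintro p _ ⟨_, _, h1⟩ ⟨_, _, h2⟩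
    exact absurd h1 (not_lt.2 h2.le)
  have d1 : Disjoint A1 (A2 ∪ A3) := by
    rw [Finset.disjoint_union_right]
    constructor
    · rw [hA1, hA2, Finset.disjoint_filter]
      rintro p _ ⟨_, h1, _⟩ ⟨_, h2, _⟩
      exact absurd h1 (not_lt.2 h2.le)
    · rw [hA1, hA3, Finset.disjoint_filter]
      rintro p _ ⟨_, _, h1⟩ ⟨_, h2, _⟩
      exact absurd h1 (not_lt.2 h2.le)
  rw [hU, Finset.card_union_of_disjoint d1, Finset.card_union_of_disjoint d23, c3, c2]
  ring


/-- inclusion of `Fin 8` -/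
def iot (hn : 9 ≤ n) (i : Fin 8) : Fin n := ⟨i.1, by omega⟩

theorem iot_inj (hn : 9 ≤ n) {i j : Fin 8} (h : iot hn i = iot hn j) : i = j :=
  Fin.ext (congrArg (fun x : Fin n => x.1) h)

open Classical in
/-- the darts of `K_8` whose face leaves `K_8` -/
noncomputable def bad (hn : 9 ≤ n) (ρ : Fin n → Fin n → Fin n) : Finset (Fin 8 × Fin 8) :=
  Finset.univ.filter (fun p => p.1 ≠ p.2 ∧ 8 ≤ (ρ (iot hn p.1) (iot hn p.2)).1)

theorem mem_bad (hn : 9 ≤ n) {p : Fin 8 × Fin 8} :
    p ∈ bad hn ρ ↔ p.1 ≠ p.2 ∧ 8 ≤ (ρ (iot hn p.1) (iot hn p.2)).1 := by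
  simp [bad]

open Classical in
theorem card_bad (h : TriRot T ρ) (hn : 9 ≤ n)
    (hK : ∀ i j : Fin n, i ≠ j → i.1 < 8 → j.1 < 8 → T.Adj i j)
    (hP : ∀ i j : Fin n, 7 ≤ i.1 → j.1 = i.1 + 1 → T.Adj i j)
    (hE : T.edgeSet.ncard = 3 * n + 6) :
    (bad hn ρ).card ≤ 5 ∧ ∃ m, (bad hn ρ).card + 3 * m = 56 := by
  set C : Finset (Fin 8 × Fin 8) :=
    Finset.univ.filter (fun p => p.1 ≠ p.2 ∧ (ρ (iot hn p.1) (iot hn p.2)).1 < 8) with hC
  have hBC : (bad hn ρ).card + C.card = 56 := by
    have hd : Disjoint (bad hn ρ) C := by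
      rw [hC, bad, Finset.disjoint_filter]
      rintro p _ ⟨_, h1⟩ ⟨_, h2⟩
      omega
    rw [← Finset.card_union_of_disjoint hd]
    have : bad hn ρ ∪ C = Finset.univ.filter (fun p : Fin 8 × Fin 8 => p.1 ≠ p.2) := by
      ext p
      simp only [Finset.mem_union, mem_bad, hC, Finset.mem_filter, Finset.mem_univ, true_and]
      constructor
      · rintro (h | h) <;> exact h.1
      · intro h
        rcases lt_or_ge (ρ (iot hn p.1) (iot hn p.2)).1 8 with h' | h'
        · exact Or.inr ⟨h, h'⟩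
        · exact Or.inl ⟨h, h'⟩
    rw [this]
    have hdec : (Finset.univ.filter (fun p : Fin 8 × Fin 8 => p.1 ≠ p.2)).card = 56 := by decide
    convert hdec
  -- triangles inside `K_8`
  have t1 := card_triple h (fun u v w => u.1 < 8 ∧ v.1 < 8 ∧ w.1 < 8)
    (fun u v w hh => ⟨hh.2.1, hh.2.2, hh.1⟩)
  set SK := (darts T).filter (fun p => p.1.1 < 8 ∧ p.2.1 < 8 ∧ (ρ p.1 p.2).1 < 8) with hSK
  set MK := (darts T).filter (fun p => (p.1.1 < 8 ∧ p.2.1 < 8 ∧ (ρ p.1 p.2).1 < 8) ∧
    p.2 < p.1 ∧ ρ p.1 p.2 < p.1) with hMK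
  have hCS : C.card = SK.card := by
    refine Finset.card_bij (fun p _ => (iot hn p.1, iot hn p.2)) ?_ ?_ ?_
    · intro p hp
      simp only [hC, Finset.mem_filter, Finset.mem_univ, true_and] at hp
      simp only [hSK, Finset.mem_filter, mem_darts]
      refine ⟨hK _ _ (fun he => hp.1 (iot_inj hn he)) p.1.2 p.2.2, p.1.2, p.2.2, hp.2⟩
    · intro p _ q _ he
      exact Prod.ext (iot_inj hn (congrArg Prod.fst he)) (iot_inj hn (congrArg Prod.snd he))
    · rintro ⟨a, b⟩ hab
      simp only [hSK, Finset.mem_filter, mem_darts] at hab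
      refine ⟨(⟨a.1, hab.2.1⟩, ⟨b.1, hab.2.2.1⟩), ?_, ?_⟩
      · simp only [hC, Finset.mem_filter, Finset.mem_univ, true_and]
        refine ⟨?_, hab.2.2.2⟩
        intro he
        exact hab.1.ne (Fin.ext (congrArg (fun x : Fin 8 => x.1) he))
      · rfl
  -- all triangles
  have t2 := card_triple h (fun _ _ _ => True) (fun _ _ _ _ => trivial)
  rw [Finset.filter_true, card_darts, hE] at t2
  set MX := (darts T).filter (fun p => (p.2 < p.1 ∧ ρ p.1 p.2 < p.1) ∧ 8 ≤ p.1.1) with hMX
  have hM : ((darts T).filter (fun p => True ∧ p.2 < p.1 ∧ ρ p.1 p.2 < p.1)).card =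
      MK.card + MX.card := by
    have hd : Disjoint MK MX := by
      rw [hMK, hMX, Finset.disjoint_filter]
      rintro p _ ⟨⟨h1, _⟩, _⟩ ⟨_, h2⟩
      omega
    rw [← Finset.card_union_of_disjoint hd]
    congr 1
    ext p
    simp only [hMK, hMX, Finset.mem_union, Finset.mem_filter, true_and]
    constructor
    · rintro ⟨h1, h2, h3⟩
      rcases lt_or_ge p.1.1 8 with h' | h'
      · left
        have e2 : p.2.1 < p.1.1 := h2
        have e3 : (ρ p.1 p.2).1 < p.1.1 := h3
        exact ⟨h1, ⟨h', by omega, by omega⟩, h2, h3⟩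
      · exact Or.inr ⟨h1, ⟨h2, h3⟩, h'⟩
    · rintro (h1 | h1)
      · exact ⟨h1.1, h1.2.2⟩
      · exact ⟨h1.1, h1.2.1⟩
  have t2' : 2 * (3 * n + 6) = 3 * (MK.card + MX.card) := by
    rw [← hM]
    convert t2
  have t1' : SK.card = 3 * MK.card := by
    rw [hSK, hMK]
    convert t1
  clear t1 t2
  -- edges
  have hE' : ((darts T).filter (fun p => p.2 < p.1)).card = 3 * n + 6 := by
    rw [card_darts_lt, hE]
  set EK := (darts T).filter (fun p => p.2 < p.1 ∧ p.1.1 < 8) with hEK
  set EX := (darts T).filter (fun p => p.2 < p.1 ∧ 8 ≤ p.1.1) with hEX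
  have hEE : EK.card + EX.card = 3 * n + 6 := by
    rw [← hE']
    have hd : Disjoint EK EX := by
      rw [hEK, hEX, Finset.disjoint_filter]
      rintro p _ ⟨_, h1⟩ ⟨_, h2⟩
      omega
    rw [← Finset.card_union_of_disjoint hd]
    congr 1
    ext p
    simp only [hEK, hEX, Finset.mem_union, Finset.mem_filter]
    constructor
    · rintro (h1 | h1) <;> exact ⟨h1.1, h1.2.1⟩
    · rintro ⟨h1, h2⟩
      rcases lt_or_ge p.1.1 8 with h' | h'
      · exact Or.inl ⟨h1, h2, h'⟩
      · exact Or.inr ⟨h1, h2, h'⟩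
  have hEK28 : 28 ≤ EK.card := by
    have hdec : (Finset.univ.filter (fun p : Fin 8 × Fin 8 => p.2 < p.1)).card = 28 := by decide
    rw [← hdec]
    refine Finset.card_le_card_of_injOn (fun p => (iot hn p.1, iot hn p.2)) ?_ ?_
    · intro p hp
      simp only [Finset.coe_filter, Set.mem_ofPred_eq, Finset.mem_univ, true_and] at hp
      simp only [hEK, Finset.coe_filter, Set.mem_ofPred_eq, mem_darts]
      have hp' : p.2.1 < p.1.1 := hp
      refine ⟨hK _ _ ?_ p.1.2 p.2.2, hp, p.1.2⟩
      intro he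
      have := iot_inj hn he
      rw [this] at hp'
      omega
    · intro p _ q _ he
      exact Prod.ext (iot_inj hn (congrArg Prod.fst he)) (iot_inj hn (congrArg Prod.snd he))
  set Y := (darts T).filter (fun p => (p.2 < p.1 ∧ p.1 < ρ p.1 p.2) ∧ 8 ≤ p.1.1) with hY
  have hMY : MX.card + Y.card ≤ EX.card := by
    have hd : Disjoint MX Y := by
      rw [hMX, hY, Finset.disjoint_filter]
      rintro p _ ⟨⟨_, h1⟩, _⟩ ⟨⟨_, h2⟩, _⟩
      exact absurd h1 (not_lt.2 h2.le)
    rw [← Finset.card_union_of_disjoint hd]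
    apply Finset.card_le_card
    intro p hp
    simp only [hMX, hY, hEX, Finset.mem_union, Finset.mem_filter] at hp ⊢
    rcases hp with hp | hp
    · exact ⟨hp.1, hp.2.1.1, hp.2.2⟩
    · exact ⟨hp.1, hp.2.1.1, hp.2.2⟩
  have hYn : n - 9 ≤ Y.card := by
    rw [← Finset.card_range (n - 9)]
    refine Finset.card_le_card_of_surjOn (fun p => p.1.1 - 8) ?_
    intro i hi
    simp only [Finset.coe_range, Set.mem_Iio] at hi
    have a1 : T.Adj (⟨i + 8, by omega⟩ : Fin n) ⟨i + 7, by omega⟩ :=
      (hP ⟨i + 7, by omega⟩ ⟨i + 8, by omega⟩ (by simp) (by simp)).symm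
    have a2 : T.Adj (⟨i + 8, by omega⟩ : Fin n) ⟨i + 9, by omega⟩ :=
      hP ⟨i + 8, by omega⟩ ⟨i + 9, by omega⟩ (by simp) (by simp)
    obtain ⟨x, hx1, hx2, hx3⟩ := h.transition (fun y => y < (⟨i + 8, by omega⟩ : Fin n)) a1 a2
      (by simp [Fin.lt_def]) (by simp [Fin.lt_def])
    refine ⟨(⟨i + 8, by omega⟩, x), ?_, by simp⟩
    simp only [hY, Finset.coe_filter, Set.mem_ofPred_eq, mem_darts]
    refine ⟨hx1, ⟨hx2, ?_⟩, by simp⟩
    exact lt_of_le_of_ne (not_lt.1 hx3) (h.adj _ _ hx1).ne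
  refine ⟨by omega, MK.card, by omega⟩


theorem no_extension (h : TriRot T ρ) (hn : 9 ≤ n)
    (hK : ∀ i j : Fin n, i ≠ j → i.1 < 8 → j.1 < 8 → T.Adj i j)
    (hP : ∀ i j : Fin n, 7 ≤ i.1 → j.1 = i.1 + 1 → T.Adj i j)
    (hE : T.edgeSet.ncard = 3 * n + 6) : False := by
  have hK' : ∀ u v : Fin 8, u ≠ v → T.Adj (iot hn u) (iot hn v) := fun u v huv =>
    hK _ _ (fun he => huv (iot_inj hn he)) u.2 v.2
  have hex : ∀ u : Fin 8, ∃ R : Fin n → Fin n,
      (∀ a, T.Adj (iot hn u) a → T.Adj (iot hn u) (R a) ∧ (R a).1 < 8) ∧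
      (∀ a : Fin n, a.1 < 8 → R a = a) ∧ (∀ a : Fin n, ¬ a.1 < 8 → R (ρ (iot hn u) a) = R a) := by
    intro u
    refine first_return (ρ (iot hn u)) (fun a => T.Adj (iot hn u) a) (fun a => a.1 < 8)
      (h.adj _) (h.cyc _) ?_
    obtain ⟨v, hv⟩ : ∃ v : Fin 8, u ≠ v := (by decide : ∀ u : Fin 8, ∃ v : Fin 8, u ≠ v) u
    exact ⟨iot hn v, hK' u v hv, v.2⟩
  choose R hR1 hR2 hR3 using hex
  let g : Fin 8 → Fin 8 → Fin 8 := fun u v =>
    if hh : (R u (ρ (iot hn u) (iot hn v))).1 < 8 then ⟨_, hh⟩ else u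
  have hg : ∀ u v : Fin 8, u ≠ v → iot hn (g u v) = R u (ρ (iot hn u) (iot hn v)) := by
    intro u v huv
    have hh := (hR1 u _ (h.adj _ _ (hK' u v huv))).2
    simp only [g, dif_pos hh]
    rfl
  have hgadj : ∀ u v : Fin 8, u ≠ v → T.Adj (iot hn u) (iot hn (g u v)) := by
    intro u v huv
    rw [hg u v huv]
    exact (hR1 u _ (h.adj _ _ (hK' u v huv))).1
  obtain ⟨hb1, hb2⟩ := card_bad h hn hK hP hE
  have hGH : GHyp g (bad hn ρ) := by
    refine ⟨?_, ?_, ?_, ?_, ?_⟩
    · intro u v huv he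
      have := hgadj u v huv
      rw [he] at this
      exact this.ne rfl
    · intro u S v0 hv0 hS0 hcl v hv
      have key := h.clo (u := iot hn u) (fun x => ∃ y : Fin 8, iot hn y = R u x ∧ S y) (by
        rintro x hx ⟨y, hy, hSy⟩
        by_cases hx8 : x.1 < 8
        · have hyx : iot hn y = x := by rw [hy, hR2 u x hx8]
          have huy : u ≠ y := by
            rintro rfl
            rw [← hyx] at hx
            exact hx.ne rfl
          refine ⟨g u y, ?_, hcl y huy hSy⟩
          rw [hg u y huy, hyx]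
        · exact ⟨y, by rw [hy, hR3 u x hx8], hSy⟩) (hK' u v0 hv0) (hK' u v hv)
        ⟨v0, (hR2 u _ v0.2).symm, hS0⟩
      obtain ⟨y, hy, hSy⟩ := key
      rw [hR2 u _ v.2] at hy
      rw [← iot_inj hn hy]
      exact hSy
    · intro u v huv
      exact ((mem_bad hn).1 huv).1
    · intro u v huv hnb
      have hx8 : (ρ (iot hn u) (iot hn v)).1 < 8 := by
        by_contra hc
        exact hnb ((mem_bad hn).2 ⟨huv, not_lt.1 hc⟩)
      have e1 : iot hn (g u v) = ρ (iot hn u) (iot hn v) := by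
        rw [hg u v huv, hR2 u _ hx8]
      obtain ⟨f1, f2, f3, f4⟩ := h.face3 (hK' u v huv)
      have hvg : v ≠ g u v := by
        intro he
        rw [← e1, ← he] at f1
        exact f1.ne rfl
      apply iot_inj hn
      rw [hg v _ hvg, e1, f2, hR2 v _ u.2]
    · intro u v w hmem hvw hgv
      have hm := (mem_bad hn).1 hmem
      rw [mem_bad]
      refine ⟨hvw, ?_⟩
      by_contra hc
      have hc' : (ρ (iot hn v) (iot hn w)).1 < 8 := not_le.1 hc
      obtain ⟨f1, f2, f3, f4⟩ := h.face3 (hK' u v hm.1)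
      have e1 : iot hn u = ρ (iot hn v) (iot hn w) := by
        rw [← hgv, hg v w hvw, hR2 v _ hc']
      have e2 : iot hn w = ρ (iot hn u) (iot hn v) := by
        apply h.inj (hK' v w hvw) f1
        rw [← e1, f2]
      have h3 := hm.2
      simp only at h3
      rw [← e2] at h3
      have h4 : (iot hn w).1 < 8 := w.2
      omega
  have hne : (bad hn ρ).Nonempty := by
    have a1 : T.Adj (iot hn 7) ⟨8, by omega⟩ := hP _ _ (by simp [iot]) (by simp [iot])
    obtain ⟨x, hx1, hx2, hx3⟩ := h.transition (fun y : Fin n => y.1 < 8) (hK' 7 0 (by decide)) a1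
      (by simp [iot]) (by simp)
    refine ⟨(7, ⟨x.1, hx2⟩), ?_⟩
    rw [mem_bad]
    refine ⟨?_, not_lt.1 hx3⟩
    intro he
    apply hx1.ne
    have : (7 : Fin 8).1 = x.1 := congrArg (fun z : Fin 8 => z.1) he
    exact Fin.ext this
  exact hGH.false hne hb1 hb2

end Counting

/-! ### The positive part: stacking -/

section Stack

variable {W : Type} {T : SimpleGraph W} {ρ : W → W → W}

/-- the graph obtained from `T` by adding a new vertex adjacent to `a`, `b`, `c` -/
def stackG (T : SimpleGraph W) (a b c : W) : SimpleGraph (Option W) where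
  Adj x y := match x, y with
    | none, none => False
    | some u, none => u = a ∨ u = b ∨ u = c
    | none, some v => v = a ∨ v = b ∨ v = c
    | some u, some v => T.Adj u v
  symm := by
    constructor
    intro x y h
    match x, y with
    | none, none => exact h
    | some u, none => exact h
    | none, some v => exact h
    | some u, some v => exact SimpleGraph.Adj.symm (G := T) h
  loopless := by
    constructor
    intro x h
    match x with
    | none => exact h
    | some u => exact T.loopless.irrefl u h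

@[simp] theorem stackG_some (a b c u v : W) : (stackG T a b c).Adj (some u) (some v) ↔ T.Adj u v :=
  Iff.rfl
@[simp] theorem stackG_none (a b c u : W) :
    (stackG T a b c).Adj (some u) none ↔ u = a ∨ u = b ∨ u = c := Iff.rfl
@[simp] theorem stackG_none' (a b c u : W) :
    (stackG T a b c).Adj none (some u) ↔ u = a ∨ u = b ∨ u = c := Iff.rfl
@[simp] theorem stackG_nn (a b c : W) : (stackG T a b c).Adj none none ↔ False := Iff.rfl

open Classical in
/-- the rotation system after placing a new vertex into the face `a b c` -/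
noncomputable def stackR (ρ : W → W → W) (a b c : W) : Option W → Option W → Option W
  | none, none => none
  | some u, none => if u = a then some c else if u = b then some a else some b
  | none, some v => if v = a then some b else if v = b then some c else some a
  | some u, some v =>
    if (u = a ∧ v = b) ∨ (u = b ∧ v = c) ∨ (u = c ∧ v = a) then none else some (ρ u v)

theorem stack_triRot (h : TriRot T ρ) {a b c : W} (hab : T.Adj a b) (hc : ρ a b = c) :
    TriRot (stackG T a b c) (stackR ρ a b c) := by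
  classical
  obtain ⟨hbc, rbc, hca, rca⟩ := h.face3 hab
  rw [hc] at hbc rbc hca rca
  have nab := hab.ne
  have nbc := hbc.ne
  have nca := hca.ne
  have s_ab : stackR ρ a b c (some a) (some b) = none := by simp [stackR]
  have s_bc : stackR ρ a b c (some b) (some c) = none := by simp [stackR]
  have s_ca : stackR ρ a b c (some c) (some a) = none := by simp [stackR]
  have s_an : stackR ρ a b c (some a) none = some c := by simp [stackR]
  have s_bn : stackR ρ a b c (some b) none = some a := by simp [stackR, nab.symm]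
  have s_cn : stackR ρ a b c (some c) none = some b := by simp [stackR, nca, nbc.symm]
  have s_na : stackR ρ a b c none (some a) = some b := by simp [stackR]
  have s_nb : stackR ρ a b c none (some b) = some c := by simp [stackR, nab.symm]
  have s_nc : stackR ρ a b c none (some c) = some a := by simp [stackR, nca, nbc.symm]
  have s_uv : ∀ u v, ¬ ((u = a ∧ v = b) ∨ (u = b ∧ v = c) ∨ (u = c ∧ v = a)) →
      stackR ρ a b c (some u) (some v) = some (ρ u v) := by
    intro u v huv
    simp only [stackR, if_neg huv]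
  -- closure property
  have hclo : ∀ (x : Option W) (S : Option W → Prop),
      (∀ y, (stackG T a b c).Adj x y → S y → S (stackR ρ a b c x y)) →
      ∀ y z, (stackG T a b c).Adj x y → (stackG T a b c).Adj x z → S y → S z := by
    intro x S hS y z hy hz hSy
    match x with
    | none =>
      have k1 : S (some a) → S (some b) := fun hh => by
        have := hS (some a) (by simp) hh
        rwa [s_na] at this
      have k2 : S (some b) → S (some c) := fun hh => by
        have := hS (some b) (by simp) hh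
        rwa [s_nb] at this
      have k3 : S (some c) → S (some a) := fun hh => by
        have := hS (some c) (by simp) hh
        rwa [s_nc] at this
      have hall : S (some a) ∧ S (some b) ∧ S (some c) := by
        match y with
        | none => exact absurd hy (by simp)
        | some y =>
          rw [stackG_none'] at hy
          rcases hy with rfl | rfl | rfl
          · exact ⟨hSy, k1 hSy, k2 (k1 hSy)⟩
          · exact ⟨k3 (k2 hSy), hSy, k2 hSy⟩
          · exact ⟨k3 hSy, k1 (k3 hSy), hSy⟩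
      match z with
      | none => exact absurd hz (by simp)
      | some z =>
        rw [stackG_none'] at hz
        rcases hz with rfl | rfl | rfl
        · exact hall.1
        · exact hall.2.1
        · exact hall.2.2
    | some u =>
      -- the restricted predicate is closed
      have hS' : ∀ v, T.Adj u v → S (some v) → S (some (ρ u v)) := by
        intro v huv hSv
        by_cases hsp : (u = a ∧ v = b) ∨ (u = b ∧ v = c) ∨ (u = c ∧ v = a)
        · rcases hsp with ⟨rfl, rfl⟩ | ⟨rfl, rfl⟩ | ⟨rfl, rfl⟩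
          · have h1 := hS (some v) huv hSv
            rw [s_ab] at h1
            have h2 := hS none (by simp) h1
            rw [s_an] at h2
            rw [hc]; exact h2
          · have h1 := hS (some v) huv hSv
            rw [s_bc] at h1
            have h2 := hS none (by simp) h1
            rw [s_bn] at h2
            rw [rbc]; exact h2
          · have h1 := hS (some v) huv hSv
            rw [s_ca] at h1
            have h2 := hS none (by simp) h1
            rw [s_cn] at h2
            rw [rca]; exact h2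
        · have h1 := hS (some v) huv hSv
          rwa [s_uv u v hsp] at h1
      -- some old neighbour satisfies S
      have hold : ∃ v, T.Adj u v ∧ S (some v) := by
        match y with
        | some y => exact ⟨y, hy, hSy⟩
        | none =>
          have h1 := hS none hy hSy
          rw [stackG_none] at hy
          rcases hy with rfl | rfl | rfl
          · rw [s_an] at h1; exact ⟨c, hca.symm, h1⟩
          · rw [s_bn] at h1; exact ⟨a, hab.symm, h1⟩
          · rw [s_cn] at h1; exact ⟨b, hbc.symm, h1⟩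
      obtain ⟨v, huv, hSv⟩ := hold
      have hall : ∀ w, T.Adj u w → S (some w) := fun w hw =>
        h.clo (fun x => S (some x)) hS' huv hw hSv
      match z with
      | some z => exact hall z hz
      | none =>
        rw [stackG_none] at hz
        rcases hz with rfl | rfl | rfl
        · have h1 := hS (some b) hab (hall b hab)
          rwa [s_ab] at h1
        · have h1 := hS (some c) hbc (hall c hbc)
          rwa [s_bc] at h1
        · have h1 := hS (some a) hca (hall a hca)
          rwa [s_ca] at h1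
  have hface : ∀ u v, (stackG T a b c).Adj u v → (stackG T a b c).Adj u (stackR ρ a b c u v) ∧
      (stackG T a b c).Adj v (stackR ρ a b c u v) ∧
      stackR ρ a b c v (stackR ρ a b c u v) = u := by
    intro u v huv
    match u, v with
    | none, none => exact absurd huv (by simp)
    | none, some v =>
      rw [stackG_none'] at huv
      rcases huv with rfl | rfl | rfl
      · rw [s_na, s_ab]; exact ⟨by simp, hab, rfl⟩
      · rw [s_nb, s_bc]; exact ⟨by simp, hbc, rfl⟩
      · rw [s_nc, s_ca]; exact ⟨by simp, hca, rfl⟩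
    | some u, none =>
      rw [stackG_none] at huv
      rcases huv with rfl | rfl | rfl
      · rw [s_an, s_nc]; exact ⟨hca.symm, by simp, rfl⟩
      · rw [s_bn, s_na]; exact ⟨hab.symm, by simp, rfl⟩
      · rw [s_cn, s_nb]; exact ⟨hbc.symm, by simp, rfl⟩
    | some u, some v =>
      rw [stackG_some] at huv
      by_cases hsp : (u = a ∧ v = b) ∨ (u = b ∧ v = c) ∨ (u = c ∧ v = a)
      · rcases hsp with ⟨rfl, rfl⟩ | ⟨rfl, rfl⟩ | ⟨rfl, rfl⟩
        · rw [s_ab, s_bn]; exact ⟨by simp, by simp, rfl⟩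
        · rw [s_bc, s_cn]; exact ⟨by simp, by simp, rfl⟩
        · rw [s_ca, s_an]; exact ⟨by simp, by simp, rfl⟩
      · rw [s_uv u v hsp]
        obtain ⟨f1, f2, f3, f4⟩ := h.face3 huv
        refine ⟨f3.symm, f1, ?_⟩
        rw [s_uv, f2]
        rintro (⟨h1, h2⟩ | ⟨h1, h2⟩ | ⟨h1, h2⟩)
        · apply hsp; right; right
          rw [h2, h1, hc] at f2
          exact ⟨f2.symm, h1⟩
        · apply hsp; left
          rw [h2, h1, rbc] at f2
          exact ⟨f2.symm, h1⟩
        · apply hsp; right; left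
          rw [h2, h1, rca] at f2
          exact ⟨f2.symm, h1⟩
  refine ⟨fun u v huv => (hface u v huv).1, ?_, fun u v huv => (hface u v huv).2⟩
  intro u v w hv hw
  exact hclo u (fun x => ∃ m : ℕ, (stackR ρ a b c u)^[m] v = x) (by
    rintro y _ ⟨m, rfl⟩
    exact ⟨m + 1, by rw [Function.iterate_succ_apply']⟩) v w hv hw ⟨0, rfl⟩

theorem stack_connected (h : T.Connected) (a b c : W) : (stackG T a b c).Connected := by
  have : Nonempty (Option W) := ⟨none⟩
  have hmap : ∀ u v, (stackG T a b c).Reachable (some u) (some v) := by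
    intro u v
    exact (h.preconnected u v).map (⟨some, fun hh => hh⟩ : T →g stackG T a b c)
  have hn : ∀ u, (stackG T a b c).Reachable (some u) none := by
    intro u
    exact (hmap u a).trans (SimpleGraph.Adj.reachable (by simp))
  refine ⟨?_⟩
  intro x y
  match x, y with
  | none, none => exact SimpleGraph.Reachable.refl _
  | some u, none => exact hn u
  | none, some v => exact (hn v).symm
  | some u, some v => exact hmap u v

theorem stack_ncard [Finite W] {a b c : W} (hab : a ≠ b) (hbc : b ≠ c) (hca : c ≠ a) :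
    (stackG T a b c).edgeSet.ncard = T.edgeSet.ncard + 3 := by
  have e : (stackG T a b c).edgeSet = Sym2.map some '' T.edgeSet ∪
      {s(none, some a), s(none, some b), s(none, some c)} := by
    ext x
    induction x using Sym2.ind with
    | _ u v =>
      rw [SimpleGraph.mem_edgeSet]
      simp only [Set.mem_union, Set.mem_image, Set.mem_insert_iff, Set.mem_singleton_iff]
      constructor
      · intro huv
        match u, v with
        | none, none => exact absurd huv (by simp)
        | none, some v =>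
          rw [stackG_none'] at huv
          rcases huv with rfl | rfl | rfl <;> simp
        | some u, none =>
          rw [stackG_none] at huv
          rcases huv with rfl | rfl | rfl <;> simp [Sym2.eq_swap]
        | some u, some v =>
          left
          exact ⟨s(u, v), huv, by simp⟩
      · rintro (⟨x, hx, he⟩ | he | he | he)
        · induction x using Sym2.ind with
          | _ p q =>
            rw [Sym2.map_mk, Sym2.eq_iff] at he
            rcases he with ⟨h1, h2⟩ | ⟨h1, h2⟩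
            · subst h1; subst h2; exact hx
            · subst h1; subst h2; exact SimpleGraph.Adj.symm (G := T) hx
        · rw [Sym2.eq_iff] at he
          rcases he with ⟨h1, h2⟩ | ⟨h1, h2⟩ <;> subst h1 <;> subst h2 <;> simp
        · rw [Sym2.eq_iff] at he
          rcases he with ⟨h1, h2⟩ | ⟨h1, h2⟩ <;> subst h1 <;> subst h2 <;> simp
        · rw [Sym2.eq_iff] at he
          rcases he with ⟨h1, h2⟩ | ⟨h1, h2⟩ <;> subst h1 <;> subst h2 <;> simp
  rw [e, Set.ncard_union_eq, Set.ncard_image_of_injective _ (Sym2.map.injective (Option.some_injective _))]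
  · congr 1
    rw [Set.ncard_eq_three]
    refine ⟨_, _, _, ?_, ?_, ?_, rfl⟩
    · intro hh; rw [Sym2.eq_iff] at hh; simp at hh; exact hab hh
    · intro hh; rw [Sym2.eq_iff] at hh; simp at hh; exact hca hh.symm
    · intro hh; rw [Sym2.eq_iff] at hh; simp at hh; exact hbc hh
  · rw [Set.disjoint_left]
    rintro x ⟨y, _, rfl⟩ hx
    induction y using Sym2.ind with
    | _ p q =>
      rw [Sym2.map_mk] at hx
      simp only [Set.mem_insert_iff, Set.mem_singleton_iff, Sym2.eq_iff] at hx
      simp at hx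

end Stack


/-! ### The base triangulation of the double torus with 11 vertices -/

/-- rotation system of an 11-vertex triangulation of the double torus containing `K_8` -/
def baseR : Fin 11 → Fin 11 → Fin 11 :=
  ![![0, 9, 6, 4, 10, 7, 1, 8, 2, 3, 5], ![6, 0, 9, 5, 3, 2, 7, 4, 0, 0, 0],
    ![8, 5, 0, 9, 6, 10, 0, 3, 7, 1, 4], ![9, 4, 7, 0, 0, 1, 5, 6, 0, 2, 0],
    ![3, 7, 10, 1, 0, 6, 2, 5, 0, 0, 0], ![10, 3, 1, 6, 7, 0, 4, 0, 0, 0, 2],
    ![2, 0, 4, 7, 5, 3, 0, 1, 0, 0, 0], ![5, 6, 8, 2, 1, 4, 3, 0, 0, 0, 0],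
    ![7, 0, 0, 0, 0, 0, 0, 2, 0, 0, 0], ![1, 2, 3, 0, 0, 0, 0, 0, 0, 0, 0],
    ![4, 0, 5, 0, 2, 0, 0, 0, 0, 0, 0]]

/-- adjacency of the base graph: `K_8` on `0..7`, and `8 ~ 0,2,7`, `9 ~ 0,1,2,3`,
`10 ~ 0,2,4,5` -/
def baseA (i j : Fin 11) : Bool :=
  (i != j) && ((decide (i.1 < 8) && decide (j.1 < 8)) ||
    (i == 8 && (j == 0 || j == 2 || j == 7)) || (j == 8 && (i == 0 || i == 2 || i == 7)) ||
    (i == 9 && (j == 0 || j == 1 || j == 2 || j == 3)) ||
    (j == 9 && (i == 0 || i == 1 || i == 2 || i == 3)) ||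
    (i == 10 && (j == 0 || j == 2 || j == 4 || j == 5)) ||
    (j == 10 && (i == 0 || i == 2 || i == 4 || i == 5)))

def baseG : SimpleGraph (Fin 11) where
  Adj i j := baseA i j = true
  symm := ⟨by decide +kernel⟩
  loopless := ⟨by decide +kernel⟩

instance : DecidableRel baseG.Adj := fun i j => inferInstanceAs (Decidable (baseA i j = true))

theorem base_adj : ∀ u v, baseG.Adj u v → baseG.Adj u (baseR u v) := by decide +kernel
theorem base_face : ∀ u v, baseG.Adj u v → baseG.Adj v (baseR u v) ∧ baseR v (baseR u v) = u := by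
  decide +kernel
theorem base_cyc : ∀ u v w, baseG.Adj u v → baseG.Adj u w →
    ∃ m : Fin 11, (baseR u)^[m.1] v = w := by
  decide +kernel

theorem base_triRot : TriRot baseG baseR :=
  ⟨base_adj, fun u v w hv hw => (base_cyc u v w hv hw).imp' Fin.val (fun _ h => h), base_face⟩

theorem base_card : baseG.edgeFinset.card = 39 := by decide +kernel

theorem base_ncard : baseG.edgeSet.ncard = 39 := by
  rw [Set.ncard_eq_toFinset_card' baseG.edgeSet]
  exact base_card

theorem base_connected : baseG.Connected := by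
  have : Nonempty (Fin 11) := ⟨0⟩
  refine ⟨?_⟩
  have h0 : ∀ u : Fin 11, baseG.Reachable u 0 := by
    intro u
    by_cases hu : u = 0
    · rw [hu]
    · exact SimpleGraph.Adj.reachable ((by decide +kernel : ∀ u : Fin 11, u ≠ 0 → baseG.Adj u 0) u hu)
  intro u v
  exact (h0 u).trans (h0 v).symm


/-! ### The family -/

theorem family (k : ℕ) : ∃ (W : Type) (_ : Fintype W) (T : SimpleGraph W) (ρ : W → W → W)
    (φ : ℕ → W), T.Connected ∧ TriRot T ρ ∧ T.edgeSet.ncard = 3 * Fintype.card W + 6 ∧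
      (∀ i j, i < 9 + k → j < 9 + k → φ i = φ j → i = j) ∧
      (∀ i j, i < 8 → j < 8 → i ≠ j → T.Adj (φ i) (φ j)) ∧
      (∀ i, 7 ≤ i → i + 1 < 9 + k → T.Adj (φ i) (φ (i + 1))) ∧ T.Adj (φ 0) (φ 8) ∧
      ρ (φ 0) (φ 7) = φ (8 + k) := by
  induction k with
  | zero =>
    refine ⟨Fin 11, inferInstance, baseG, baseR, fun i => Fin.ofNat 11 i, base_connected,
      base_triRot, ?_, ?_, ?_, ?_, ?_, ?_⟩
    · rw [base_ncard]; rfl
    · intro i j hi hj h
      have := congrArg Fin.val h
      simp only [Fin.val_ofNat] at this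
      omega
    · have hd : ∀ i j : Fin 8, i ≠ j → baseG.Adj (Fin.ofNat 11 i.1) (Fin.ofNat 11 j.1) := by
        decide +kernel
      intro i j hi hj hij
      exact hd ⟨i, hi⟩ ⟨j, hj⟩ (fun h => hij (congrArg Fin.val h))
    · intro i hi hi2
      have : i = 7 := by omega
      subst this
      decide +kernel
    · decide +kernel
    · decide +kernel
  | succ k ih =>
    obtain ⟨W, hW, T, ρ, φ, hc, hρ, hE, hinj, hK, hP, h08, hface⟩ := ih
    have hab : T.Adj (φ 0) (φ 7) := hK 0 7 (by norm_num) (by norm_num) (by norm_num)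
    obtain ⟨hbc, _, hca, _⟩ := hρ.face3 hab
    rw [hface] at hbc hca
    refine ⟨Option W, inferInstance, stackG T (φ 0) (φ 7) (φ (8 + k)),
      stackR ρ (φ 0) (φ 7) (φ (8 + k)), fun i => if i < 9 + k then some (φ i) else none,
      stack_connected hc _ _ _, stack_triRot hρ hab hface, ?_, ?_, ?_, ?_, ?_, ?_⟩
    · rw [stack_ncard hab.ne hbc.ne hca.ne, hE, Fintype.card_option]
      ring
    · intro i j hi hj h
      simp only at h
      split_ifs at h with h1 h2 h2
      · exact hinj i j h1 h2 (Option.some_injective _ h)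
      · omega
    · intro i j hi hj hij
      simp only [if_pos (show i < 9 + k by omega), if_pos (show j < 9 + k by omega)]
      exact hK i j hi hj hij
    · intro i hi hi2
      by_cases h1 : i + 1 < 9 + k
      · simp only [if_pos (show i < 9 + k by omega), if_pos h1]
        exact hP i hi h1
      · have : i = 8 + k := by omega
        subst this
        simp only [if_pos (show 8 + k < 9 + k by omega), if_neg h1]
        simp
    · simp only [if_pos (show 0 < 9 + k by omega), if_pos (show 8 < 9 + k by omega)]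
      exact h08
    · simp only [if_pos (show 0 < 9 + k by omega), if_pos (show 7 < 9 + k by omega),
        if_neg (show ¬ 8 + (k + 1) < 9 + k by omega)]
      simp [stackR]

theorem Embeddable.mono {g : ℕ} {V : Type} {G H : SimpleGraph V} (hGH : G ≤ H)
    (h : Embeddable g H) : Embeddable g G := by
  obtain ⟨W, hW, T, hT, φ, hφ⟩ := h
  exact ⟨W, hW, T, hT, φ, fun u v huv => hφ u v (hGH huv)⟩

theorem embeddable_plus (n : ℕ) (hn : 9 ≤ n) :
    Embeddable 2 (lollipop n ⊔ SimpleGraph.edge (⟨0, by omega⟩ : Fin n) ⟨8, by omega⟩) := by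
  obtain ⟨k, rfl⟩ : ∃ k, n = 9 + k := ⟨n - 9, by omega⟩
  obtain ⟨W, hW, T, ρ, φ, hc, hρ, hE, hinj, hK, hP, h08, hface⟩ := family k
  refine ⟨W, hW, T, ⟨hc, ⟨ρ, hρ⟩, 2 * Fintype.card W + 4, ?_, ?_⟩,
    ⟨fun i => φ i.1, fun i j h => Fin.ext (hinj _ _ i.2 j.2 h)⟩, ?_⟩
  · rw [hE]; ring
  · rw [hE]; push_cast; ring
  · intro u v huv
    rw [SimpleGraph.sup_adj] at huv
    change T.Adj (φ u.1) (φ v.1)
    rcases huv with ⟨h1, h2 | h2 | h2⟩ | huv
    · exact hK _ _ h2.1 h2.2 (fun h => h1 (Fin.ext h))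
    · rw [h2.2]
      exact hP _ h2.1 (by rw [← h2.2]; exact v.2)
    · rw [h2.2]
      exact (hP _ h2.1 (by rw [← h2.2]; exact u.2)).symm
    · rw [SimpleGraph.edge_adj] at huv
      rcases huv.1 with ⟨h1, h2⟩ | ⟨h1, h2⟩
      · rw [h1, h2]; exact h08
      · rw [h1, h2]; exact h08.symm

/-- **Negative answer to Q1 (double torus).** For every `n ≥ 9` the graph on `n` vertices that
consists of `K_8` and a pendant path is embeddable in the double torus and is not edge-maximal, but
no triangulation of the double torus on the same vertex set contains it. -/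
theorem result (n : ℕ) (hn : 9 ≤ n) :
    Embeddable 2 (lollipop n) ∧ ¬ EdgeMaximal 2 (lollipop n) ∧
      ¬ ∃ T : SimpleGraph (Fin n), lollipop n ≤ T ∧ IsTriangulation 2 T := by
  have hemb := embeddable_plus n hn
  refine ⟨hemb.mono le_sup_left, ?_, ?_⟩
  · intro hmax
    refine hmax ⟨0, by omega⟩ ⟨8, by omega⟩ ?_ ?_ hemb
    · intro h
      have := congrArg Fin.val h
      simp at this
    · rintro ⟨_, h | h | h⟩
      · have := h.2
        simp at this
      · have := h.1
        simp at this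
      · have := h.2
        simp at this
  · rintro ⟨T, hGT, _, ⟨ρ, hρ⟩, F, hF, hχ⟩
    rw [Fintype.card_fin] at hχ
    have hE : T.edgeSet.ncard = 3 * n + 6 := by
      push_cast at hχ
      omega
    refine no_extension hρ hn ?_ ?_ hE
    · intro i j hij hi hj
      exact hGT ⟨hij, Or.inl ⟨hi, hj⟩⟩
    · intro i j hi hj
      refine hGT ⟨?_, Or.inr (Or.inl ⟨hi, hj⟩)⟩
      intro h
      rw [h] at hj
      omega

end Pool.Agent.Results.MP_2de2bd_co.DoubleTorusK8
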